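import Pool.Statements.S12801

set_option autoImplicit false
open Pool Pool.MP_15cd64_gt

/-!
Idea of the construction.

Put `f = p + q` and `g = p - q`.  The curvature functions of `f` and `g` agree if and only if the
mixed curvature function of `p` and `q` vanishes.  For a zonal `p` (depending only on the polar
angle) and `q = sin^2 (theta) cos (2 phi)` this is a linear ordinary differential equation for `p`
which has an analytic solution on the whole sphere.  For that pair `f` and `g` are congruent (by a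
quarter turn), but the vanishing of the mixed curvature function is invariant under all
linear changes of variables, whereas congruence is not.  After the change of variables
`y -> 2 y`, `z -> sqrt 3 z` one gets, with `N = sqrt (x^2 + 4 y^2 + 3 z^2)`,
`p = 2 N - z^2 N / (N^2 - z^2) - (3/2) z (log (N + z) - log (N - z))`, `q = (x^2 - 4 y^2) / N`.
Both functions are even, `p - q` takes the value `6` on the unit sphere and `|p + q| < 6` there.
-/

namespace Pool.Agent.S12801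

abbrev E : Type := EuclideanSpace ℝ (Fin 3)

/-- the three coordinate functionals -/
noncomputable abbrev pr (i : Fin 3) : E →L[ℝ] ℝ := EuclideanSpace.proj i

noncomputable def S (x : E) : ℝ := x 0 ^ 2 + 4 * x 1 ^ 2 + 3 * x 2 ^ 2
noncomputable def N (x : E) : ℝ := Real.sqrt (S x)
noncomputable def T (x : E) : ℝ := N x ^ 2 - x 2 ^ 2
noncomputable def L (x : E) : ℝ := Real.log (N x + x 2) - Real.log (N x - x 2)

noncomputable def p (x : E) : ℝ := 2 * N x - x 2 ^ 2 * N x / T x - 3 / 2 * (x 2 * L x)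
noncomputable def a (x : E) : ℝ := x 0 ^ 2 - 4 * x 1 ^ 2
noncomputable def q (x : E) : ℝ := a x / N x

lemma S_pos {x : E} (hx : x ≠ 0) : 0 < S x := by
  by_contra h
  apply hx
  unfold S at h
  have h0 : x 0 = 0 := by nlinarith [sq_nonneg (x 0), sq_nonneg (x 1), sq_nonneg (x 2)]
  have h1 : x 1 = 0 := by nlinarith [sq_nonneg (x 0), sq_nonneg (x 1), sq_nonneg (x 2)]
  have h2 : x 2 = 0 := by nlinarith [sq_nonneg (x 0), sq_nonneg (x 1), sq_nonneg (x 2)]
  ext i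
  fin_cases i <;> simp [h0, h1, h2]

lemma N_pos {x : E} (hx : x ≠ 0) : 0 < N x := Real.sqrt_pos.2 (S_pos hx)

lemma N_sq (x : E) : N x ^ 2 = x 0 ^ 2 + 4 * x 1 ^ 2 + 3 * x 2 ^ 2 := by
  unfold N
  rw [Real.sq_sqrt]
  · rfl
  · unfold S; positivity

lemma T_eq (x : E) : T x = x 0 ^ 2 + 4 * x 1 ^ 2 + 2 * x 2 ^ 2 := by
  unfold T; rw [N_sq]; ring

lemma T_pos {x : E} (hx : x ≠ 0) : 0 < T x := by
  have h := S_pos hx
  rw [T_eq]
  unfold S at h
  nlinarith [sq_nonneg (x 0), sq_nonneg (x 1), sq_nonneg (x 2)]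

lemma Nadd_pos {x : E} (hx : x ≠ 0) : 0 < N x + x 2 := by
  have h := T_pos hx
  have h2 := N_pos hx
  unfold T at h
  nlinarith [abs_nonneg (x 2), neg_abs_le (x 2), abs_lt_of_sq_lt_sq (show x 2 ^ 2 < N x ^ 2 by linarith) h2.le]

lemma Nsub_pos {x : E} (hx : x ≠ 0) : 0 < N x - x 2 := by
  have h := T_pos hx
  have h2 := N_pos hx
  unfold T at h
  have h3 := abs_lt_of_sq_lt_sq (show x 2 ^ 2 < N x ^ 2 by linarith) h2.le
  have := le_abs_self (x 2)
  linarith

lemma hpr (i : Fin 3) (x : E) : HasFDerivAt (fun y : E => y i) (pr i) x := (pr i).hasFDerivAt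

lemma hdiv {f g : E → ℝ} {f' g' : E →L[ℝ] ℝ} {x : E} (hf : HasFDerivAt f f' x)
    (hg : HasFDerivAt g g' x) (h : g x ≠ 0) :
    HasFDerivAt (fun y => f y / g y) ((g x)⁻¹ • f' - (f x / g x ^ 2) • g') x := by
  have h1 : HasFDerivAt (fun y => (g y)⁻¹) (-(g x ^ 2)⁻¹ • g') x :=
    (hasDerivAt_inv h).comp_hasFDerivAt x hg
  have h2 : HasFDerivAt (fun y => f y * (g y)⁻¹) _ x := hf.mul h1
  refine HasFDerivAt.congr_fderiv (f := fun y => f y / g y) h2 ?_
  ext v
  simp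
  field_simp
  ring

lemma hN {x : E} (hx : x ≠ 0) :
    HasFDerivAt N ((x 0 / N x) • pr 0 + (4 * x 1 / N x) • pr 1 + (3 * x 2 / N x) • pr 2) x := by
  have hS : HasFDerivAt S _ x :=
    (((hpr 0 x).pow 2).add (((hpr 1 x).pow 2).const_mul 4)).add (((hpr 2 x).pow 2).const_mul 3)
  have h := hS.sqrt (S_pos hx).ne'
  have h' := (N_pos hx).ne'
  refine HasFDerivAt.congr_fderiv (f := N) h ?_
  change √(S x) ≠ 0 at h'
  change _ = (x 0 / √(S x)) • pr 0 + (4 * x 1 / √(S x)) • pr 1 + (3 * x 2 / √(S x)) • pr 2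
  ext v
  simp
  field_simp

lemma hT {x : E} (hx : x ≠ 0) :
    HasFDerivAt T ((2 * x 0) • pr 0 + (8 * x 1) • pr 1 + (4 * x 2) • pr 2) x := by
  have h : HasFDerivAt T _ x := ((hN hx).pow 2).sub ((hpr 2 x).pow 2)
  have h' := (N_pos hx).ne'
  refine h.congr_fderiv ?_
  ext v
  simp
  field_simp
  ring

lemma hL {x : E} (hx : x ≠ 0) :
    HasFDerivAt L ((-2 * x 0 * x 2 / (N x * T x)) • pr 0 + (-8 * x 1 * x 2 / (N x * T x)) • pr 1
      + (2 * N x / T x - 6 * x 2 ^ 2 / (N x * T x)) • pr 2) x := by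
  have h1 := Nadd_pos hx
  have h2 := Nsub_pos hx
  have h : HasFDerivAt L _ x := (((hN hx).add (hpr 2 x)).log h1.ne').sub
    (((hN hx).sub (hpr 2 x)).log h2.ne')
  have h' := (N_pos hx).ne'
  refine h.congr_fderiv ?_
  have hT : T x = (N x + x 2) * (N x - x 2) := by unfold T; ring
  rw [hT]
  ext v
  simp
  field_simp
  ring

lemma hq {x : E} (hx : x ≠ 0) :
    HasFDerivAt q ((2 * x 0 / N x - a x * x 0 / N x ^ 3) • pr 0
      + (-8 * x 1 / N x - 4 * a x * x 1 / N x ^ 3) • pr 1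
      + (- 3 * a x * x 2 / N x ^ 3) • pr 2) x := by
  have h' := (N_pos hx).ne'
  have ha : HasFDerivAt a _ x := ((hpr 0 x).pow 2).sub (((hpr 1 x).pow 2).const_mul 4)
  have h := hdiv ha (hN hx) h'
  refine h.congr_fderiv ?_
  ext v
  simp
  field_simp
  ring

lemma hp {x : E} (hx : x ≠ 0) :
    HasFDerivAt p ((2 * x 0 * N x ^ 3 / T x ^ 2) • pr 0
      + (8 * x 1 * N x ^ 3 / T x ^ 2) • pr 1
      + (x 2 * N x * (N x ^ 2 + 3 * x 2 ^ 2) / T x ^ 2 - 3 / 2 * L x) • pr 2) x := by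
  have h' := (N_pos hx).ne'
  have h2' := (T_pos hx).ne'
  have h : HasFDerivAt p _ x := (((hN hx).const_mul 2).sub
    (hdiv (((hpr 2 x).pow 2).mul (hN hx)) (hT hx) h2')).sub (((hpr 2 x).mul (hL hx)).const_mul (3/2))
  refine h.congr_fderiv ?_
  have hT : T x = N x ^ 2 - x 2 ^ 2 := by unfold T; ring
  ext v
  simp
  field_simp
  rw [hT]
  ring

lemma ha (x : E) : HasFDerivAt a ((2 * x 0) • pr 0 + (-8 * x 1) • pr 1) x := by
  have ha : HasFDerivAt a _ x := ((hpr 0 x).pow 2).sub (((hpr 1 x).pow 2).const_mul 4)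
  refine ha.congr_fderiv ?_
  ext v
  simp
  ring

/-- partial derivatives of `q` -/
noncomputable def q0 (x : E) : ℝ := 2 * x 0 / N x - a x * x 0 / N x ^ 3
noncomputable def q1 (x : E) : ℝ := -8 * x 1 / N x - 4 * a x * x 1 / N x ^ 3
noncomputable def q2 (x : E) : ℝ := - 3 * a x * x 2 / N x ^ 3

/-- partial derivatives of `p` -/
noncomputable def p0 (x : E) : ℝ := 2 * x 0 * N x ^ 3 / T x ^ 2
noncomputable def p1 (x : E) : ℝ := 8 * x 1 * N x ^ 3 / T x ^ 2
noncomputable def p2 (x : E) : ℝ := x 2 * N x * (N x ^ 2 + 3 * x 2 ^ 2) / T x ^ 2 - 3 / 2 * L x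

/-- second partial derivatives of `q` -/
noncomputable def q00 (x : E) : ℝ :=
  2 / N x - 4 * x 0 ^ 2 / N x ^ 3 + 3 * a x * x 0 ^ 2 / N x ^ 5 - a x / N x ^ 3
noncomputable def q01 (x : E) : ℝ := 12 * a x * x 0 * x 1 / N x ^ 5
noncomputable def q02 (x : E) : ℝ := -6 * x 0 * x 2 / N x ^ 3 + 9 * a x * x 0 * x 2 / N x ^ 5
noncomputable def q11 (x : E) : ℝ :=
  -8 / N x + 64 * x 1 ^ 2 / N x ^ 3 + 48 * a x * x 1 ^ 2 / N x ^ 5 - 4 * a x / N x ^ 3
noncomputable def q12 (x : E) : ℝ := 24 * x 1 * x 2 / N x ^ 3 + 36 * a x * x 1 * x 2 / N x ^ 5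
noncomputable def q22 (x : E) : ℝ := 27 * a x * x 2 ^ 2 / N x ^ 5 - 3 * a x / N x ^ 3

/-- second partial derivatives of `p` -/
noncomputable def p00 (x : E) : ℝ :=
  2 * N x ^ 3 / T x ^ 2 - 2 * N x * x 0 ^ 2 / T x ^ 2 - 8 * N x * x 2 ^ 2 * x 0 ^ 2 / T x ^ 3
noncomputable def p01 (x : E) : ℝ :=
  -8 * N x * x 0 * x 1 / T x ^ 2 - 32 * N x * x 2 ^ 2 * x 0 * x 1 / T x ^ 3
noncomputable def p02 (x : E) : ℝ :=
  -6 * N x * x 0 * x 2 / T x ^ 2 - 8 * N x * x 2 * x 0 * (3 * x 2 ^ 2 - N x ^ 2) / T x ^ 3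
noncomputable def p11 (x : E) : ℝ :=
  8 * N x ^ 3 / T x ^ 2 - 32 * N x * x 1 ^ 2 / T x ^ 2 - 128 * N x * x 2 ^ 2 * x 1 ^ 2 / T x ^ 3
noncomputable def p12 (x : E) : ℝ :=
  -24 * N x * x 1 * x 2 / T x ^ 2 - 32 * N x * x 2 * x 1 * (3 * x 2 ^ 2 - N x ^ 2) / T x ^ 3
noncomputable def p22 (x : E) : ℝ :=
  6 * N x ^ 3 / T x ^ 2 - 18 * N x * x 2 ^ 2 / T x ^ 2
    - 8 * N x * (3 * x 2 ^ 2 - N x ^ 2) ^ 2 / T x ^ 3

lemma hq0 {x : E} (hx : x ≠ 0) :
    HasFDerivAt q0 (q00 x • pr 0 + q01 x • pr 1 + q02 x • pr 2) x := by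
  have h' := (N_pos hx).ne'
  have h : HasFDerivAt q0 _ x := (hdiv ((hpr 0 x).const_mul 2) (hN hx) h').sub
    (hdiv ((ha x).mul (hpr 0 x)) ((hN hx).pow 3) (pow_ne_zero 3 h'))
  refine h.congr_fderiv ?_
  unfold q00 q01 q02
  ext v
  simp
  field_simp
  ring

lemma hq1 {x : E} (hx : x ≠ 0) :
    HasFDerivAt q1 (q01 x • pr 0 + q11 x • pr 1 + q12 x • pr 2) x := by
  have h' := (N_pos hx).ne'
  have h : HasFDerivAt q1 _ x := (hdiv ((hpr 1 x).const_mul (-8)) (hN hx) h').sub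
    (hdiv (((ha x).const_mul 4).mul (hpr 1 x)) ((hN hx).pow 3) (pow_ne_zero 3 h'))
  refine h.congr_fderiv ?_
  unfold q11 q01 q12
  ext v
  simp
  field_simp
  ring

lemma hq2 {x : E} (hx : x ≠ 0) :
    HasFDerivAt q2 (q02 x • pr 0 + q12 x • pr 1 + q22 x • pr 2) x := by
  have h' := (N_pos hx).ne'
  have h : HasFDerivAt q2 _ x :=
    hdiv (((ha x).const_mul (-3)).mul (hpr 2 x)) ((hN hx).pow 3) (pow_ne_zero 3 h')
  refine h.congr_fderiv ?_
  unfold q02 q22 q12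
  ext v
  simp
  field_simp
  ring

lemma hp0 {x : E} (hx : x ≠ 0) :
    HasFDerivAt p0 (p00 x • pr 0 + p01 x • pr 1 + p02 x • pr 2) x := by
  have h' := (N_pos hx).ne'
  have h2' := (T_pos hx).ne'
  have h : HasFDerivAt p0 _ x :=
    hdiv (((hpr 0 x).const_mul 2).mul ((hN hx).pow 3)) ((hT hx).pow 2) (pow_ne_zero 2 h2')
  refine h.congr_fderiv ?_
  have hT : T x = N x ^ 2 - x 2 ^ 2 := by unfold T; ring
  unfold p00 p01 p02
  ext v
  simp
  field_simp
  rw [hT]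
  ring

lemma hp1 {x : E} (hx : x ≠ 0) :
    HasFDerivAt p1 (p01 x • pr 0 + p11 x • pr 1 + p12 x • pr 2) x := by
  have h' := (N_pos hx).ne'
  have h2' := (T_pos hx).ne'
  have h : HasFDerivAt p1 _ x :=
    hdiv (((hpr 1 x).const_mul 8).mul ((hN hx).pow 3)) ((hT hx).pow 2) (pow_ne_zero 2 h2')
  refine h.congr_fderiv ?_
  have hT : T x = N x ^ 2 - x 2 ^ 2 := by unfold T; ring
  unfold p01 p11 p12
  ext v
  simp
  field_simp
  rw [hT]
  ring

lemma hp2 {x : E} (hx : x ≠ 0) :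
    HasFDerivAt p2 (p02 x • pr 0 + p12 x • pr 1 + p22 x • pr 2) x := by
  have h' := (N_pos hx).ne'
  have h2' := (T_pos hx).ne'
  have h : HasFDerivAt p2 _ x :=
    (hdiv (((hpr 2 x).mul (hN hx)).mul (((hN hx).pow 2).add (((hpr 2 x).pow 2).const_mul 3)))
      ((hT hx).pow 2) (pow_ne_zero 2 h2')).sub ((hL hx).const_mul (3/2))
  refine h.congr_fderiv ?_
  have hT : T x = N x ^ 2 - x 2 ^ 2 := by unfold T; ring
  unfold p02 p12 p22
  ext v
  simp
  field_simp
  rw [hT]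
  ring

/-! ### Homogeneity -/

lemma N_smul (x : E) {c : ℝ} (hc : 0 < c) : N (c • x) = c * N x := by
  unfold N S
  have h : (c • x) 0 ^ 2 + 4 * (c • x) 1 ^ 2 + 3 * (c • x) 2 ^ 2
      = c ^ 2 * (x 0 ^ 2 + 4 * x 1 ^ 2 + 3 * x 2 ^ 2) := by
    simp
    ring
  rw [h, Real.sqrt_mul (sq_nonneg c), Real.sqrt_sq hc.le]

lemma L_smul {x : E} (hx : x ≠ 0) {c : ℝ} (hc : 0 < c) : L (c • x) = L x := by
  have h1 := Nadd_pos hx
  have h2 := Nsub_pos hx
  unfold L
  rw [N_smul x hc]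
  have e1 : c * N x + (c • x) 2 = c * (N x + x 2) := by simp; ring
  have e2 : c * N x - (c • x) 2 = c * (N x - x 2) := by simp; ring
  rw [e1, e2, Real.log_mul hc.ne' h1.ne', Real.log_mul hc.ne' h2.ne']
  ring

lemma N_zero : N (0 : E) = 0 := by
  unfold N S; simp

lemma p_zero : p (0 : E) = 0 := by
  unfold p; simp [N_zero]

lemma q_zero : q (0 : E) = 0 := by
  unfold q; simp [N_zero]

lemma T_smul (x : E) {c : ℝ} (hc : 0 < c) : T (c • x) = c ^ 2 * T x := by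
  unfold T
  rw [N_smul x hc]
  simp
  ring

lemma p_smul (x : E) {c : ℝ} (hc : 0 < c) : p (c • x) = c * p x := by
  by_cases hx : x = 0
  · subst hx; simp [p_zero]
  have h2' := (T_pos hx).ne'
  unfold p
  rw [N_smul x hc, T_smul x hc, L_smul hx hc]
  simp
  field_simp

lemma q_smul (x : E) {c : ℝ} (hc : 0 < c) : q (c • x) = c * q x := by
  by_cases hx : x = 0
  · subst hx; simp [q_zero]
  have h2' := (N_pos hx).ne'
  unfold q a
  rw [N_smul x hc]
  simp
  field_simp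

/-! ### Analyticity -/

lemma an_pr (i : Fin 3) (x : E) : AnalyticAt ℝ (fun y : E => y i) x := (pr i).analyticAt x

lemma an_N {x : E} (hx : x ≠ 0) : AnalyticAt ℝ N x := by
  have hS : AnalyticAt ℝ S x :=
    (((an_pr 0 x).pow 2).add (analyticAt_const.mul ((an_pr 1 x).pow 2))).add
      (analyticAt_const.mul ((an_pr 2 x).pow 2))
  have h : ContDiffAt ℝ ⊤ N x := (hS.contDiffAt).sqrt (S_pos hx).ne'
  have h' := contDiffWithinAt_omega_iff_analyticWithinAt.1 h
  rwa [analyticWithinAt_univ] at h'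

lemma an_L {x : E} (hx : x ≠ 0) : AnalyticAt ℝ L x := by
  have h1 : AnalyticAt ℝ (fun y : E => N y + y 2) x := (an_N hx).add (an_pr 2 x)
  have h2 : AnalyticAt ℝ (fun y : E => N y - y 2) x := (an_N hx).sub (an_pr 2 x)
  have h3 : AnalyticAt ℝ (fun y : E => Real.log (N y + y 2)) x :=
    AnalyticAt.comp (g := Real.log) (f := fun y : E => N y + y 2) (analyticAt_log (Nadd_pos hx)) h1
  have h4 : AnalyticAt ℝ (fun y : E => Real.log (N y - y 2)) x :=
    AnalyticAt.comp (g := Real.log) (f := fun y : E => N y - y 2) (analyticAt_log (Nsub_pos hx)) h2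
  exact h3.sub h4

lemma an_T {x : E} (hx : x ≠ 0) : AnalyticAt ℝ T x :=
  ((an_N hx).pow 2).sub ((an_pr 2 x).pow 2)

lemma an_p {x : E} (hx : x ≠ 0) : AnalyticAt ℝ p x :=
  ((analyticAt_const.mul (an_N hx)).sub
    ((((an_pr 2 x).pow 2).mul (an_N hx)).div (an_T hx) (T_pos hx).ne')).sub
    (analyticAt_const.mul ((an_pr 2 x).mul (an_L hx)))

lemma an_q {x : E} (hx : x ≠ 0) : AnalyticAt ℝ q x :=
  (((an_pr 0 x).pow 2).sub (analyticAt_const.mul ((an_pr 1 x).pow 2))).div (an_N hx) (N_pos hx).ne'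

/-! ### The second derivatives -/

/-- gradient of `p` as a functional -/
noncomputable def Gp (x : E) : E →L[ℝ] ℝ := p0 x • pr 0 + p1 x • pr 1 + p2 x • pr 2
/-- gradient of `q` as a functional -/
noncomputable def Gq (x : E) : E →L[ℝ] ℝ := q0 x • pr 0 + q1 x • pr 1 + q2 x • pr 2

lemma hp' {x : E} (hx : x ≠ 0) : HasFDerivAt p (Gp x) x := hp hx
lemma hq' {x : E} (hx : x ≠ 0) : HasFDerivAt q (Gq x) x := hq hx

/-- Hessian of `p` -/
noncomputable def Hp (x : E) : E →L[ℝ] (E →L[ℝ] ℝ) :=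
  (p00 x • pr 0 + p01 x • pr 1 + p02 x • pr 2).smulRight (pr 0)
  + (p01 x • pr 0 + p11 x • pr 1 + p12 x • pr 2).smulRight (pr 1)
  + (p02 x • pr 0 + p12 x • pr 1 + p22 x • pr 2).smulRight (pr 2)

/-- Hessian of `q` -/
noncomputable def Hq (x : E) : E →L[ℝ] (E →L[ℝ] ℝ) :=
  (q00 x • pr 0 + q01 x • pr 1 + q02 x • pr 2).smulRight (pr 0)
  + (q01 x • pr 0 + q11 x • pr 1 + q12 x • pr 2).smulRight (pr 1)
  + (q02 x • pr 0 + q12 x • pr 1 + q22 x • pr 2).smulRight (pr 2)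

lemma hGp {x : E} (hx : x ≠ 0) : HasFDerivAt Gp (Hp x) x :=
  (((hp0 hx).smul_const (pr 0)).add ((hp1 hx).smul_const (pr 1))).add ((hp2 hx).smul_const (pr 2))

lemma hGq {x : E} (hx : x ≠ 0) : HasFDerivAt Gq (Hq x) x :=
  (((hq0 hx).smul_const (pr 0)).add ((hq1 hx).smul_const (pr 1))).add ((hq2 hx).smul_const (pr 2))

lemma hess_add {u : E} (hu : u ≠ 0) :
    fderiv ℝ (fderiv ℝ (fun x => p x + q x)) u = Hp u + Hq u := by
  have h : fderiv ℝ (fun x => p x + q x) =ᶠ[nhds u] fun x => Gp x + Gq x := by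
    filter_upwards [isOpen_ne.mem_nhds hu] with x hx
    exact ((hp' hx).add (hq' hx)).fderiv
  rw [h.fderiv_eq]
  exact ((hGp hu).add (hGq hu)).fderiv

lemma hess_sub {u : E} (hu : u ≠ 0) :
    fderiv ℝ (fderiv ℝ (fun x => p x - q x)) u = Hp u - Hq u := by
  have h : fderiv ℝ (fun x => p x - q x) =ᶠ[nhds u] fun x => Gp x - Gq x := by
    filter_upwards [isOpen_ne.mem_nhds hu] with x hx
    exact ((hp' hx).sub (hq' hx)).fderiv
  rw [h.fderiv_eq]
  exact ((hGp hu).sub (hGq hu)).fderiv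

lemma mixed (x y z N T a : ℝ) (hN : N ≠ 0) (hT : T ≠ 0) (h1 : N^2 = x^2+4*y^2+3*z^2)
    (h2 : T = N^2 - z^2) (ha : a = x^2 - 4*y^2)
    (p00 p01 p02 p11 p12 p22 q00 q01 q02 q11 q12 q22 : ℝ)
    (hp00 : p00 = 2*N^3/T^2 - 2*N*x^2/T^2 - 8*N*z^2*x^2/T^3)
    (hp01 : p01 = -8*N*x*y/T^2 - 32*N*z^2*x*y/T^3)
    (hp02 : p02 = -6*N*x*z/T^2 - 8*N*z*x*(3*z^2-N^2)/T^3)
    (hp11 : p11 = 8*N^3/T^2 - 32*N*y^2/T^2 - 128*N*z^2*y^2/T^3)
    (hp12 : p12 = -24*N*y*z/T^2 - 32*N*z*y*(3*z^2-N^2)/T^3)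
    (hp22 : p22 = 6*N^3/T^2 - 18*N*z^2/T^2 - 8*N*(3*z^2-N^2)^2/T^3)
    (hq00 : q00 = 2/N - 4*x^2/N^3 + 3*a*x^2/N^5 - a/N^3)
    (hq01 : q01 = 12*a*x*y/N^5)
    (hq02 : q02 = -6*x*z/N^3 + 9*a*x*z/N^5)
    (hq11 : q11 = -8/N + 64*y^2/N^3 + 48*a*y^2/N^5 - 4*a/N^3)
    (hq12 : q12 = 24*y*z/N^3 + 36*a*y*z/N^5)
    (hq22 : q22 = 27*a*z^2/N^5 - 3*a/N^3) :
    p00*q11+q00*p11+p00*q22+q00*p22+p11*q22+q11*p22 - 2*(p01*q01) - 2*(p02*q02) - 2*(p12*q12)
      = 0 := by
  have hx : x^2 = N^2 - 4*y^2 - 3*z^2 := by linarith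
  have e1 : p01*q01 = (-8*N/T^2 - 32*N*z^2/T^3)*(12*a/N^5)*x^2*y^2 := by
    rw [hp01, hq01]; ring
  have e2 : p02*q02 = (-6*N/T^2 - 8*N*(3*z^2-N^2)/T^3)*(-6/N^3 + 9*a/N^5)*x^2*z^2 := by
    rw [hp02, hq02]; ring
  rw [e1, e2, hp00, hp11, hp12, hp22, hq00, hq11, hq12, hq22, ha, hx]
  have hT' : N^2 - z^2 ≠ 0 := h2 ▸ hT
  rw [h2]
  field_simp
  ring

lemma mixed' {u : E} (hu : u ≠ 0) :
    p00 u * q11 u + q00 u * p11 u + p00 u * q22 u + q00 u * p22 u + p11 u * q22 u + q11 u * p22 u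
      - 2 * (p01 u * q01 u) - 2 * (p02 u * q02 u) - 2 * (p12 u * q12 u) = 0 :=
  mixed (u 0) (u 1) (u 2) (N u) (T u) (a u) (N_pos hu).ne' (T_pos hu).ne' (N_sq u) rfl rfl
    _ _ _ _ _ _ _ _ _ _ _ _ rfl rfl rfl rfl rfl rfl rfl rfl rfl rfl rfl rfl

/-! ### Noncongruence -/

lemma N_neg (x : E) : N (-x) = N x := by unfold N S; simp
lemma T_neg (x : E) : T (-x) = T x := by unfold T; rw [N_neg]; simp
lemma L_neg (x : E) : L (-x) = - L x := by
  unfold L; rw [N_neg]; simp [sub_eq_add_neg]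
lemma p_neg (x : E) : p (-x) = p x := by
  unfold p; rw [N_neg, T_neg, L_neg]; simp
lemma q_neg (x : E) : q (-x) = q x := by
  unfold q a; rw [N_neg]; simp

lemma zL_nonneg {x : E} (hx : x ≠ 0) : 0 ≤ x 2 * L x := by
  have h1 := Nadd_pos hx
  have h2 := Nsub_pos hx
  unfold L
  rcases le_total 0 (x 2) with h | h
  · have := Real.log_le_log h2 (show N x - x 2 ≤ N x + x 2 by linarith)
    exact mul_nonneg h (by linarith)
  · have := Real.log_le_log h1 (show N x + x 2 ≤ N x - x 2 by linarith)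
    exact mul_nonneg_of_nonpos_of_nonpos h (by linarith)

lemma sq_div_T {x : E} (hx : x ≠ 0) : x 2 ^ 2 / T x ≤ 1 / 2 := by
  rw [div_le_div_iff₀ (T_pos hx) (by norm_num), T_eq]
  nlinarith [sq_nonneg (x 0), sq_nonneg (x 1)]

lemma zL_le {x : E} (hx : x ≠ 0) : x 2 * L x ≤ 2 * N x := by
  have h1 := Nadd_pos hx
  have h2 := Nsub_pos hx
  have hN := N_pos hx
  have hT := T_pos hx
  have hTe : T x = (N x + x 2) * (N x - x 2) := by unfold T; ring
  have hs := sq_div_T hx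
  have key : x 2 * L x ≤ 4 * N x * (x 2 ^ 2 / T x) := by
    unfold L
    rcases le_total 0 (x 2) with h | h
    · have hl := Real.log_le_sub_one_of_pos (div_pos h1 h2)
      rw [Real.log_div h1.ne' h2.ne'] at hl
      have e : (N x + x 2) / (N x - x 2) - 1 = 2 * x 2 / (N x - x 2) := by
        field_simp; ring
      rw [e] at hl
      calc x 2 * (Real.log (N x + x 2) - Real.log (N x - x 2))
          ≤ x 2 * (2 * x 2 / (N x - x 2)) := mul_le_mul_of_nonneg_left hl h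
        _ = 2 * (N x + x 2) * (x 2 ^ 2 / T x) := by rw [hTe]; field_simp
        _ ≤ 4 * N x * (x 2 ^ 2 / T x) := by
            apply mul_le_mul_of_nonneg_right _ (by positivity)
            linarith
    · have hl := Real.log_le_sub_one_of_pos (div_pos h2 h1)
      rw [Real.log_div h2.ne' h1.ne'] at hl
      have e : (N x - x 2) / (N x + x 2) - 1 = 2 * (-x 2) / (N x + x 2) := by
        field_simp; ring
      rw [e] at hl
      calc x 2 * (Real.log (N x + x 2) - Real.log (N x - x 2))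
          = (-x 2) * (Real.log (N x - x 2) - Real.log (N x + x 2)) := by ring
        _ ≤ (-x 2) * (2 * (-x 2) / (N x + x 2)) :=
            mul_le_mul_of_nonneg_left hl (by linarith)
        _ = 2 * (N x - x 2) * (x 2 ^ 2 / T x) := by rw [hTe]; field_simp
        _ ≤ 4 * N x * (x 2 ^ 2 / T x) := by
            apply mul_le_mul_of_nonneg_right _ (by positivity)
            linarith
  nlinarith

lemma p_le {x : E} (hx : x ≠ 0) : p x ≤ 2 * N x := by
  have h := zL_nonneg hx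
  have hN := N_pos hx
  have hT := T_pos hx
  have h2 : 0 ≤ x 2 ^ 2 * N x / T x := by positivity
  unfold p
  linarith

lemma le_p {x : E} (hx : x ≠ 0) : -(3 / 2) * N x ≤ p x := by
  have h := zL_le hx
  have hN := N_pos hx
  have hT := T_pos hx
  have hs := sq_div_T hx
  have h2 : x 2 ^ 2 * N x / T x ≤ 1 / 2 * N x := by
    have : x 2 ^ 2 * N x / T x = x 2 ^ 2 / T x * N x := by ring
    rw [this]
    exact mul_le_mul_of_nonneg_right hs hN.le
  unfold p
  linarith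

lemma norm_sq_eq (x : E) : ‖x‖ ^ 2 = x 0 ^ 2 + x 1 ^ 2 + x 2 ^ 2 := by
  rw [EuclideanSpace.norm_sq_eq]
  simp [Fin.sum_univ_three]

/-- On the unit sphere the support function `p + q` takes values in `(-6, 6)`. -/
lemma H1_bounds {w : E} (hw : ‖w‖ = 1) : -6 < p w + q w ∧ p w + q w < 6 := by
  have hw0 : w ≠ 0 := by
    intro h; rw [h] at hw; simp at hw
  have hn := norm_sq_eq w
  rw [hw] at hn
  have hN := N_pos hw0
  have hN2 := N_sq w
  have hN1 : 1 ≤ N w := by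
    nlinarith [sq_nonneg (w 0), sq_nonneg (w 1), sq_nonneg (w 2)]
  have hN3 : N w ≤ 2 := by
    nlinarith [sq_nonneg (w 0), sq_nonneg (w 1), sq_nonneg (w 2)]
  have h3N : N w ^ 2 + 2 ≤ 3 * N w := by nlinarith
  have hq : q w * N w = w 0 ^ 2 - 4 * w 1 ^ 2 := by
    unfold q a; field_simp
  constructor
  · have hp := le_p hw0
    by_contra hcon
    push Not at hcon
    have h1 : (p w + q w) * N w ≤ -6 * N w := mul_le_mul_of_nonneg_right hcon hN.le
    have h2 : -(3 / 2) * N w * N w ≤ p w * N w := mul_le_mul_of_nonneg_right hp hN.le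
    nlinarith [sq_nonneg (w 0), sq_nonneg (w 1), sq_nonneg (w 2)]
  · have hp := p_le hw0
    by_contra hcon
    push Not at hcon
    have h1 : 6 * N w ≤ (p w + q w) * N w := mul_le_mul_of_nonneg_right hcon hN.le
    have h2 : p w * N w ≤ 2 * N w * N w := mul_le_mul_of_nonneg_right hp hN.le
    nlinarith [sq_nonneg (w 0), sq_nonneg (w 1), sq_nonneg (w 2)]

lemma H2_val : p (EuclideanSpace.single 1 1) - q (EuclideanSpace.single 1 1) = 6 := by
  have hN : N (EuclideanSpace.single 1 1) = 2 := by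
    unfold N S
    simp
    rw [show (4 : ℝ) = 2 ^ 2 by norm_num]
    exact Real.sqrt_sq (by norm_num)
  have hT : T (EuclideanSpace.single 1 1) = 4 := by
    unfold T; rw [hN]; simp; norm_num
  unfold p q a L
  rw [hN, hT]
  simp
  norm_num

/-- There exist two analytic hedgehogs of R^3 with the same curvature function on the unit sphere such that neither support function is ±(the other composed with an isometry) plus a linear term. Support functions are taken as 1-homogeneous; curvature function = σ₂ of the Hessian. -/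
theorem result :
    ∃ H₁ H₂ : EuclideanSpace ℝ (Fin 3) → ℝ,
      (∀ x : EuclideanSpace ℝ (Fin 3), ∀ c : ℝ, 0 < c → H₁ (c • x) = c * H₁ x) ∧
      (∀ x : EuclideanSpace ℝ (Fin 3), ∀ c : ℝ, 0 < c → H₂ (c • x) = c * H₂ x) ∧
      AnalyticOnNhd ℝ H₁ {x : EuclideanSpace ℝ (Fin 3) | x ≠ 0} ∧
      AnalyticOnNhd ℝ H₂ {x : EuclideanSpace ℝ (Fin 3) | x ≠ 0} ∧
      (∀ u : EuclideanSpace ℝ (Fin 3), ‖u‖ = 1 →
        (∑ i : Fin 3, ∑ j : Fin 3,
          (fderiv ℝ (fderiv ℝ H₁) u (EuclideanSpace.single i 1) (EuclideanSpace.single i 1) *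
            fderiv ℝ (fderiv ℝ H₁) u (EuclideanSpace.single j 1) (EuclideanSpace.single j 1) -
           fderiv ℝ (fderiv ℝ H₁) u (EuclideanSpace.single i 1) (EuclideanSpace.single j 1) *
            fderiv ℝ (fderiv ℝ H₁) u (EuclideanSpace.single j 1) (EuclideanSpace.single i 1)) / 2)
        =
        (∑ i : Fin 3, ∑ j : Fin 3,
          (fderiv ℝ (fderiv ℝ H₂) u (EuclideanSpace.single i 1) (EuclideanSpace.single i 1) *
            fderiv ℝ (fderiv ℝ H₂) u (EuclideanSpace.single j 1) (EuclideanSpace.single j 1) -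
           fderiv ℝ (fderiv ℝ H₂) u (EuclideanSpace.single i 1) (EuclideanSpace.single j 1) *
            fderiv ℝ (fderiv ℝ H₂) u (EuclideanSpace.single j 1) (EuclideanSpace.single i 1)) / 2)) ∧
      ¬ ∃ A : EuclideanSpace ℝ (Fin 3) ≃ₗᵢ[ℝ] EuclideanSpace ℝ (Fin 3),
        ∃ t : EuclideanSpace ℝ (Fin 3), ∃ ε : ℝ, (ε = 1 ∨ ε = -1) ∧
          ∀ x : EuclideanSpace ℝ (Fin 3), H₂ x = ε * H₁ (A x) + inner ℝ x t := by
  refine ⟨fun x => p x + q x, fun x => p x - q x, ?_, ?_, ?_, ?_, ?_, ?_⟩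
  · intro x c hc
    show p (c • x) + q (c • x) = c * (p x + q x)
    rw [p_smul x hc, q_smul x hc]; ring
  · intro x c hc
    show p (c • x) - q (c • x) = c * (p x - q x)
    rw [p_smul x hc, q_smul x hc]; ring
  · intro x hx
    exact (an_p hx).add (an_q hx)
  · intro x hx
    exact (an_p hx).sub (an_q hx)
  · intro u hu
    have hu0 : u ≠ 0 := by
      intro h; rw [h] at hu; simp at hu
    have hm := mixed' hu0
    rw [hess_add hu0, hess_sub hu0]
    simp only [Fin.sum_univ_three]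
    simp [Hp, Hq]
    linear_combination 2 * hm
  · rintro ⟨A, t, ε, hε, h⟩
    have h1 := h (EuclideanSpace.single 1 1)
    have h2 := h (-EuclideanSpace.single 1 1)
    simp only [map_neg, p_neg, q_neg, inner_neg_left] at h1 h2
    have hb := H1_bounds (w := A (EuclideanSpace.single 1 1)) (by simp)
    have hv := H2_val
    rcases hε with rfl | rfl
    · linarith [hb.1, hb.2]
    · linarith [hb.1, hb.2]

end Pool.Agent.S12801
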