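import Pool.Statements.S00286
import Pool.Agent.Helper5.GorEx

set_option autoImplicit false
open Pool Pool.MP_845d9e_ag

namespace Pool.Agent.S00286

open Pool.Agent.Helper5.GorPts

/-- The negation of the preceding statement: Over an algebraically closed char-0 field, for any finite point set in P^n whose Artinian reduction by a general linear form has 1-dim socle (arithmetically Gorenstein), the h-vector (Hilbert function of that reduction) rises then falls. -/
theorem result :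
    ¬ (∀ (K : Type) [Field K] [CharZero K] [IsAlgClosed K] (n : ℕ)
    (X : Finset (Fin (n+1) → K)) (c : Fin (n+1) → K)
    (I J : Ideal (MvPolynomial (Fin (n+1)) K))
    (H M : ℕ → Submodule K (MvPolynomial (Fin (n+1)) K)) (h : ℕ → ℕ),
    X.Nonempty →
    (∀ p ∈ X, p ≠ 0) →
    (∀ p ∈ X, ∑ j, c j * p j ≠ 0) →
    (∀ f : MvPolynomial (Fin (n+1)) K,
        f ∈ I ↔ ∀ p ∈ X, ∀ t : K, MvPolynomial.eval (t • p) f = 0) →
    J = I ⊔ Ideal.span
          ({∑ j, MvPolynomial.C (c j) * MvPolynomial.X j} :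
            Set (MvPolynomial (Fin (n+1)) K)) →
    (∃ g : MvPolynomial (Fin (n+1)) K, g ∉ J ∧ (∀ j, MvPolynomial.X j * g ∈ J) ∧
        ∀ f : MvPolynomial (Fin (n+1)) K, (∀ j, MvPolynomial.X j * f ∈ J) →
          ∃ a : K, f - MvPolynomial.C a * g ∈ J) →
    (∀ i (f : MvPolynomial (Fin (n+1)) K), f ∈ H i ↔ f.IsHomogeneous i) →
    (∀ i (f : MvPolynomial (Fin (n+1)) K), f ∈ M i ↔ (f.IsHomogeneous i ∧ f ∈ J)) →
    (∀ i, h i = Module.finrank K ↥(H i) - Module.finrank K ↥(M i)) →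
    ∃ m : ℕ, (∀ i j, i ≤ j → j ≤ m → h i ≤ h j) ∧ (∀ i j, m ≤ i → i ≤ j → h j ≤ h i)) := by
  classical
  intro hall
  obtain ⟨N, hN⟩ : ∃ N, Fintype.card {g : Gr // Gen g} = N + 1 := by
    have : Nonempty {g : Gr // Gen g} := ⟨⟨0, gen_zero⟩⟩
    exact Nat.exists_eq_succ_of_ne_zero Fintype.card_ne_zero
  let φ : Fin (N + 1) ≃ {g : Gr // Gen g} := (Fintype.equivFinOfCardEq hN).symm
  let a : Fin (N + 1) → Gr := fun i => (φ i : Gr)
  have ha : ∀ g, Gen g ↔ ∃ i, a i = g := by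
    intro g
    constructor
    · intro hg
      exact ⟨φ.symm ⟨g, hg⟩, by simp [a]⟩
    · rintro ⟨i, rfl⟩
      exact (φ i).2
  obtain ⟨j0, hj0⟩ := (ha 0).1 gen_zero
  have hlen : Len a Ln := len_of_gen a ha
  let X : Finset (Fin (N + 1) → ℂ) :=
    Finset.univ.image fun χ : AddChar Gr ℂ => fun i => χ (a i)
  have hX : ∀ p, p ∈ X ↔ ∃ χ : AddChar Gr ℂ, (fun i => χ (a i)) = p := by
    intro p; simp [X]
  let c : Fin (N + 1) → ℂ := Pi.single j0 1
  have hc : ∀ p : Fin (N + 1) → ℂ, ∑ j, c j * p j = p j0 := by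
    intro p
    rw [Finset.sum_eq_single j0]
    · simp [c]
    · intro b _ hb; simp [c, Pi.single_eq_of_ne hb]
    · simp
  let I : Ideal (MvPolynomial (Fin (N + 1)) ℂ) :=
    ⨅ χ : AddChar Gr ℂ, ⨅ t : ℂ, RingHom.ker (MvPolynomial.eval (t • fun i => χ (a i)))
  have hI : ∀ f, f ∈ I ↔ ∀ χ : AddChar Gr ℂ, ∀ t : ℂ,
      MvPolynomial.eval (t • fun i => χ (a i)) f = 0 := by
    intro f
    simp only [I, Ideal.mem_iInf, RingHom.mem_ker]
  let J : Ideal (MvPolynomial (Fin (N + 1)) ℂ) := I ⊔ Ideal.span {MvPolynomial.X j0}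
  have hs : Setup a j0 I J := ⟨fun f => (hI f).trans (mem_ideal_iff a f), rfl⟩
  let H : ℕ → Submodule ℂ (MvPolynomial (Fin (N + 1)) ℂ) := fun i =>
    MvPolynomial.homogeneousSubmodule (Fin (N + 1)) ℂ i
  let M : ℕ → Submodule ℂ (MvPolynomial (Fin (N + 1)) ℂ) := fun i =>
    MvPolynomial.homogeneousSubmodule (Fin (N + 1)) ℂ i ⊓ J.restrictScalars ℂ
  have hH : ∀ i (f : MvPolynomial (Fin (N + 1)) ℂ), f ∈ H i ↔ f.IsHomogeneous i :=
    fun i f => Iff.rfl
  have hM : ∀ i (f : MvPolynomial (Fin (N + 1)) ℂ),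
      f ∈ M i ↔ (f.IsHomogeneous i ∧ f ∈ J) := fun i f => Iff.rfl
  let h : ℕ → ℕ := fun i => Module.finrank ℂ ↥(H i) - Module.finrank ℂ ↥(M i)
  have hh : ∀ i, h i = (Finset.univ.filter fun g : Gr => Ln g = i).card := fun i =>
    hs.hvec hlen hj0 i (H i) (M i) (hH i) (hM i)
  obtain ⟨m, hm1, hm2⟩ := hall ℂ N X c I J H M h
    ⟨_, (hX _).2 ⟨1, rfl⟩⟩
    (by
      intro p hp h0
      obtain ⟨χ, rfl⟩ := (hX p).1 hp
      have h1 := congrFun h0 j0
      simp only [hj0, AddChar.map_zero_eq_one, Pi.zero_apply] at h1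
      exact one_ne_zero h1)
    (by
      intro p hp
      obtain ⟨χ, rfl⟩ := (hX p).1 hp
      rw [hc]
      simp [hj0])
    (by
      intro f
      rw [hI]
      constructor
      · intro hf p hp t
        obtain ⟨χ, rfl⟩ := (hX p).1 hp
        exact hf χ t
      · intro hf χ t
        exact hf _ ((hX _).2 ⟨χ, rfl⟩) t)
    (by
      have h1 : (∑ j, MvPolynomial.C (c j) * MvPolynomial.X j :
          MvPolynomial (Fin (N + 1)) ℂ) = MvPolynomial.X j0 := by
        rw [Finset.sum_eq_single j0]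
        · simp [c]
        · intro b _ hb; simp [c, Pi.single_eq_of_ne hb]
        · simp
      rw [h1])
    (hs.socle hlen hj0 (1, 1) (fun g => by rw [Ln_top]; exact Ln_le g)
      (by
        intro g hg
        obtain ⟨s, hs1, hs2⟩ := Ln_up g hg
        obtain ⟨i, rfl⟩ := (ha s).1 hs1
        exact ⟨i, hs2⟩))
    hH hM (fun i => rfl)
  have h2 : h 2 = 1279 := (hh 2).trans card2
  have h3 : h 3 = 1264 := (hh 3).trans card3
  have h4 : h 4 = 1279 := (hh 4).trans card4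
  rcases Nat.lt_or_ge m 3 with hlt | hge
  · have := hm2 3 4 (by omega) (by omega)
    omega
  · have := hm1 2 3 (by omega) (by omega)
    omega

end Pool.Agent.S00286
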