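import Pool.Statements.S00511
import Pool.Agent.SNP.Final

set_option autoImplicit false
open Pool Pool.MP_e566f8_ag

namespace Pool.Agent.S00511

/-- For any two rational maps of the complex projective line, any point of P1×P1 and any curve in P1×P1 (nonzero bihomogeneous equation), the set of n with (f1^n, f2^n)(point) on the curve is eventually periodic, i.e. a finite union of arithmetic progressions. -/
theorem result :
    ∀ (F₁ G₁ F₂ G₂ : MvPolynomial (Fin 2) ℂ) (d₁ d₂ : ℕ)
      (H : MvPolynomial (Fin 2 ⊕ Fin 2) ℂ) (p q : ℕ) (a b : Fin 2 → ℂ),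
      F₁.IsHomogeneous d₁ → G₁.IsHomogeneous d₁ →
      (∀ v : Fin 2 → ℂ, MvPolynomial.eval v F₁ = 0 → MvPolynomial.eval v G₁ = 0 → v = 0) →
      F₂.IsHomogeneous d₂ → G₂.IsHomogeneous d₂ →
      (∀ v : Fin 2 → ℂ, MvPolynomial.eval v F₂ = 0 → MvPolynomial.eval v G₂ = 0 → v = 0) →
      H ≠ 0 →
      MvPolynomial.IsWeightedHomogeneous
        (Sum.elim (fun _ : Fin 2 => (1 : ℕ)) (fun _ : Fin 2 => (0 : ℕ))) H p →
      MvPolynomial.IsWeightedHomogeneous
        (Sum.elim (fun _ : Fin 2 => (0 : ℕ)) (fun _ : Fin 2 => (1 : ℕ))) H q →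
      a ≠ 0 → b ≠ 0 →
      ∃ N P : ℕ, 0 < P ∧ ∀ n : ℕ, N ≤ n →
        (MvPolynomial.eval
            (Sum.elim
              ((fun v : Fin 2 → ℂ => ![MvPolynomial.eval v F₁, MvPolynomial.eval v G₁])^[n] a)
              ((fun v : Fin 2 → ℂ => ![MvPolynomial.eval v F₂, MvPolynomial.eval v G₂])^[n] b))
            H = 0 ↔
          MvPolynomial.eval
            (Sum.elim
              ((fun v : Fin 2 → ℂ => ![MvPolynomial.eval v F₁, MvPolynomial.eval v G₁])^[n + P] a)
              ((fun v : Fin 2 → ℂ => ![MvPolynomial.eval v F₂, MvPolynomial.eval v G₂])^[n + P] b))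
            H = 0) := by
  exact Pool.Agent.SNP.frozen_of_main Pool.Agent.SNP.main

end Pool.Agent.S00511
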