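import Pool.Statements.S00850
import Pool.Agent.Helper70.Fin

set_option autoImplicit false
open Pool Pool.MP_1b0854_al

namespace Pool.Agent.S00850

/-- The negation of the preceding statement: Let F be a class of finite groups closed under images, subdirect products, normal subgroups and normal products, and solubly saturated. Then for subnormal H, K of a finite group, the F-residual of the join of H and K is the join of their F-residuals. -/
theorem result :
    ¬ (∀ F : (G : Type) → [Group G] → Prop,
    (∀ (G : Type) [Group G] [Finite G] (Q : Type) [Group Q] (f : G →* Q),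
        Function.Surjective f → F G → F Q) →
    (∀ (G : Type) [Group G] [Finite G] (Q₁ : Type) [Group Q₁] (Q₂ : Type) [Group Q₂]
        (Q : Type) [Group Q] (f₁ : G →* Q₁) (f₂ : G →* Q₂) (f : G →* Q),
        Function.Surjective f₁ → Function.Surjective f₂ → Function.Surjective f →
        f.ker = f₁.ker ⊓ f₂.ker → F Q₁ → F Q₂ → F Q) →
    (∀ (G : Type) [Group G] [Finite G] (N : Subgroup G), N.Normal → F G → F ↥N) →
    (∀ (G : Type) [Group G] [Finite G] (N M : Subgroup G), N.Normal → M.Normal →
        F ↥N → F ↥M → F ↥(N ⊔ M)) →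
    (∀ (G : Type) [Group G] [Finite G] (N : Subgroup G), N.Normal → IsSolvable ↥N →
        (∀ (Q : Type) [Group Q] (f : G →* Q), Function.Surjective f →
            f.ker = (frattini ↥N).map N.subtype → F Q) → F G) →
    ∀ (G : Type) [Group G] [Finite G] (H K : Subgroup G),
      (∃ n : ℕ, ∃ c : ℕ → Subgroup G, c 0 = H ∧ c n = ⊤ ∧
        ∀ i < n, c i ≤ c (i + 1) ∧ ((c i).subgroupOf (c (i + 1))).Normal) →
      (∃ n : ℕ, ∃ c : ℕ → Subgroup G, c 0 = K ∧ c n = ⊤ ∧
        ∀ i < n, c i ≤ c (i + 1) ∧ ((c i).subgroupOf (c (i + 1))).Normal) →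
      (⨅ (N : Subgroup ↥(H ⊔ K)) (_ : N.Normal ∧ ∀ (Q : Type) [Group Q] (f : ↥(H ⊔ K) →* Q),
          Function.Surjective f → f.ker = N → F Q), N).map (H ⊔ K).subtype
        = (⨅ (N : Subgroup ↥H) (_ : N.Normal ∧ ∀ (Q : Type) [Group Q] (f : ↥H →* Q),
            Function.Surjective f → f.ker = N → F Q), N).map H.subtype
          ⊔ (⨅ (N : Subgroup ↥K) (_ : N.Normal ∧ ∀ (Q : Type) [Group Q] (f : ↥K →* Q),
            Function.Surjective f → f.ker = N → F Q), N).map K.subtype) := by
  intro hall
  have h := hall (fun (G : Type) [Group G] => Helper70.FF G)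
    (fun G _ _ Q _ f hf h => Helper70.FF.of_surjective hf h)
    (fun G _ _ Q₁ _ Q₂ _ Q _ f₁ f₂ f hf₁ hf₂ hf hk h₁ h₂ =>
      Helper70.FF.subdirect f₁ f₂ f hf₁ hf₂ hf hk h₁ h₂)
    (fun G _ _ N hN h => Helper70.FF.normal hN h)
    (fun G _ _ N M hN hM h₁ h₂ => Helper70.FF.normal_product hN hM h₁ h₂)
    (fun G _ _ N _ hs hQ => by
      have hker : (QuotientGroup.mk' ((frattini ↥N).map N.subtype)).ker =
          (frattini ↥N).map N.subtype := QuotientGroup.ker_mk' _
      exact Helper70.FF.saturated hs (QuotientGroup.mk' _) (QuotientGroup.mk'_surjective _) hker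
        (hQ _ _ (QuotientGroup.mk'_surjective _) hker))
    Helper70.GG (Helper70.HS.comap Helper70.pr) (Helper70.KS.comap Helper70.pr)
    (Helper70.chain_aux (Subgroup.comap_mono Helper70.HS_le)
      (fun h k hh hk => by
        have h1 := Helper70.HS_conj (Subgroup.mem_comap.mp hh) (Subgroup.mem_comap.mp hk)
        rw [Subgroup.mem_comap, map_mul, map_mul, map_inv]
        exact h1)
      ((MonoidHom.normal_ker _).comap _))
    (Helper70.chain_aux (Subgroup.comap_mono Helper70.KS_le)
      (fun h k hh hk => by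
        have h1 := Helper70.KS_conj (Subgroup.mem_comap.mp hh) (Subgroup.mem_comap.mp hk)
        rw [Subgroup.mem_comap, map_mul, map_mul, map_inv]
        exact h1)
      ((MonoidHom.normal_ker _).comap _))
  have h1 := Helper70.res_top _ Helper70.HK_top
  have h2 := Helper70.res_le Helper70.HS_sub Helper70.HS_phi
  have h3 := Helper70.res_le Helper70.KS_sub Helper70.KS_phi
  exact Helper70.not_EW_le ((h1.trans h.le).trans (sup_le h2 h3))

end Pool.Agent.S00850
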