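import Pool.Statements.S01535
import Pool.Agent.Helper91.DV.C6
import Pool.Agent.Helper91.DV.B2
import Pool.Agent.DA.KDex

set_option autoImplicit false
open Pool Pool.MP_5766af_al

namespace Pool.Agent.S01535

/-- There is a division ring D that is an algebra over a field F equal to its center, with D infinite-dimensional over F, such that every proper F-subalgebra satisfies some nonzero noncommutative polynomial identity. -/
theorem result :
    ∃ (F : Type) (D : Type) (_ : Field F) (_ : DivisionRing D) (_ : Algebra F D),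
      Subalgebra.center F D ≤ ⊥ ∧ ¬ FiniteDimensional F D ∧
      ∀ A : Subalgebra F D, A ≠ ⊤ →
        ∃ n : ℕ, ∃ f : FreeAlgebra F (Fin n), f ≠ 0 ∧
          ∀ a : Fin n → A, FreeAlgebra.lift F a f = 0 := by
  obtain ⟨K, i1, i2, ⟨X⟩⟩ := Pool.Agent.DA.exists_KD
  obtain ⟨D, i3, ⟨Y⟩⟩ := Pool.Agent.Helper91.DV.exists_DD X
  exact Pool.Agent.Helper91.DV.main_of_DD Y

end Pool.Agent.S01535
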