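import Pool.Statements.S01846
import Pool.Agent.WMN.GamProp
import Pool.Agent.WMN.Simple
import Pool.Agent.WMN.Key
import Pool.Agent.WMN.Semi
import Pool.Agent.WMN.NotMinimax

set_option autoImplicit false
open Pool Pool.MP_6f2ea1_al

namespace Pool.Agent.S01846

/-- The negation of the preceding statement: Every soluble torsion-free group in which each descending chain of normal subgroups has only finitely many infinite indices has a finite subnormal series whose factors each satisfy the maximal or the minimal condition on subgroups, i.e. is minimax. -/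
theorem result :
    ¬ (∀ (G : Type) [Group G], IsSolvable G →
      (∀ g : G, ∀ n : ℕ, 0 < n → g ^ n = 1 → g = 1) →
      (∀ N : ℕ → Subgroup G, (∀ k, (N k).Normal) → Antitone N →
          ∃ m : ℕ, ∀ k : ℕ, m ≤ k → ((N (k + 1)).subgroupOf (N k)).index ≠ 0) →
      ∃ (n : ℕ) (H : ℕ → Subgroup G), H 0 = ⊥ ∧ H n = ⊤ ∧
        ∀ i : ℕ, i < n →
          (H i ≤ H (i + 1) ∧ ((H i).subgroupOf (H (i + 1))).Normal ∧
            ((∀ f : ℕ → Subgroup G, (∀ k, H i ≤ f k ∧ f k ≤ H (i + 1)) → Monotone f →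
                ∃ m : ℕ, ∀ k : ℕ, m ≤ k → f k = f m) ∨
             (∀ f : ℕ → Subgroup G, (∀ k, H i ≤ f k ∧ f k ≤ H (i + 1)) → Antitone f →
                ∃ m : ℕ, ∀ k : ℕ, m ≤ k → f k = f m)))) := by
  intro hall
  obtain ⟨I, hI, hr⟩ := Pool.Agent.WMN.exists_leftIdeal
  obtain ⟨D, _, _, hD, htf, hdiv⟩ := Pool.Agent.WMN.exists_simple I hI hr
  obtain ⟨G, _, e, he, hs, ht, hw⟩ := Pool.Agent.WMN.assembly Pool.Agent.WMN.Gam.solvable
    Pool.Agent.WMN.Gam.torsionFree Pool.Agent.WMN.Gam.wm D hD htf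
  have : Nontrivial D := IsSimpleModule.nontrivial (MonoidAlgebra ℤ Pool.Agent.WMN.Gam) D
  exact Pool.Agent.WMN.not_minimax e he htf hdiv (hall G hs ht hw)

end Pool.Agent.S01846
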