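import Pool.Statements.S01978
import Pool.Agent.Helper72.FitFinal

set_option autoImplicit false
open Pool Pool.MP_783189_al

namespace Pool.Agent.S01978

/-- The negation of the preceding statement: For every group G with a composition series, only finitely many Fitting classes are contained in the smallest Fitting class containing G (classes closed under isomorphism, normal subgroups and products of two normal subgroups). -/
theorem result :
    ¬ (∀ (G : Type) [Group G],
    (∃ (n : ℕ) (s : Fin (n + 1) → Subgroup G), s 0 = ⊥ ∧ s (Fin.last n) = ⊤ ∧
      ∀ i : Fin n, s i.castSucc ≤ s i.succ ∧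
        ((s i.castSucc).subgroupOf (s i.succ)).Normal ∧
        (s i.castSucc).subgroupOf (s i.succ) ≠ ⊤ ∧
        ∀ M : Subgroup ↥(s i.succ), M.Normal →
          (s i.castSucc).subgroupOf (s i.succ) ≤ M →
            M = (s i.castSucc).subgroupOf (s i.succ) ∨ M = ⊤) →
    Set.Finite {F : (H : Type) → Group H → Prop |
      ((∀ (H K : Type) (iH : Group H) (iK : Group K), Nonempty (H ≃* K) → F H iH → F K iK) ∧
       (∀ (H : Type) (iH : Group H) (N : Subgroup H), N.Normal → F H iH →
          F (↥N) inferInstance) ∧
       (∀ (H : Type) (iH : Group H) (N M : Subgroup H), N.Normal → M.Normal →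
          F (↥N) inferInstance → F (↥M) inferInstance → F (↥(N ⊔ M)) inferInstance)) ∧
      ∀ (K : Type) (iK : Group K), F K iK →
        ∀ E : (H : Type) → Group H → Prop,
          ((∀ (H K : Type) (iH : Group H) (iK : Group K), Nonempty (H ≃* K) → E H iH → E K iK) ∧
           (∀ (H : Type) (iH : Group H) (N : Subgroup H), N.Normal → E H iH →
              E (↥N) inferInstance) ∧
           (∀ (H : Type) (iH : Group H) (N M : Subgroup H), N.Normal → M.Normal →
              E (↥N) inferInstance → E (↥M) inferInstance → E (↥(N ⊔ M)) inferInstance)) →
          E G inferInstance → E K iK}) := by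
  intro h
  exact Pool.Agent.Helper72.Fit.infinite_classes
    (h ↥Pool.Agent.Helper72.Fit.G0 Pool.Agent.Helper72.Fit.comp_series)

end Pool.Agent.S01978
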