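import Pool.Statements.S02082
-- import your own Pool.Agent.* helpers here
import Pool.Agent.Helper46.OF.GFinal
import Pool.Agent.Helper96.OF.Main

set_option autoImplicit false
open Pool Pool.MP_804d81_al

namespace Pool.Agent.S02082

/-- The negation of the preceding statement: Some finite-index subgroup of Aut(F_3) containing the inner automorphisms maps to the right-angled Artin group of a finite graph with kernel exactly the inner automorphisms, so a finite-index subgroup of Out(F_3) embeds in a RAAG. -/
theorem result :
    ¬ (∃ (K : Subgroup (MulAut (FreeGroup (Fin 3)))) (V : Type) (_ : Finite V) (Γ : SimpleGraph V)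
      (f : K →* PresentedGroup
        {r : FreeGroup V | ∃ a b : V, Γ.Adj a b ∧
          r = FreeGroup.of a * FreeGroup.of b * (FreeGroup.of a)⁻¹ * (FreeGroup.of b)⁻¹}),
      K.index ≠ 0 ∧
      (MulAut.conj : FreeGroup (Fin 3) →* MulAut (FreeGroup (Fin 3))).range ≤ K ∧
      ∀ k : K, f k = 1 ↔
        (k : MulAut (FreeGroup (Fin 3))) ∈
          (MulAut.conj : FreeGroup (Fin 3) →* MulAut (FreeGroup (Fin 3))).range) := by
  exact Pool.Agent.Helper46.OF.S02082_of Pool.Agent.Helper96.OF.theoremM_holds

end Pool.Agent.S02082
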