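import Pool.Statements.S02124
import Pool.Agent.NFB.Main

set_option autoImplicit false
open Pool Pool.MP_838612_al

namespace Pool.Agent.S02124

/-- The negation of the preceding statement: For every group G with an abelian subgroup of finite index, there is a finite set of laws of G such that every group satisfying those finitely many laws satisfies all laws of G. -/
theorem result :
    ¬ (∀ (G : Type) [Group G],
      (∃ A : Subgroup G, A.FiniteIndex ∧ ∀ a ∈ A, ∀ b ∈ A, a * b = b * a) →
      ∃ S : Finset (FreeGroup ℕ),
        (∀ w ∈ S, ∀ f : ℕ → G, FreeGroup.lift f w = 1) ∧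
        ∀ (H : Type) [Group H],
          (∀ w ∈ S, ∀ f : ℕ → H, FreeGroup.lift f w = 1) →
          ∀ w : FreeGroup ℕ, (∀ f : ℕ → G, FreeGroup.lift f w = 1) →
            ∀ f : ℕ → H, FreeGroup.lift f w = 1) := by
  exact Pool.Agent.NFB.main

end Pool.Agent.S02124
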