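import Pool.Statements.S02293
import Pool.Agent.Helper82.Egg.Red
import Pool.Agent.Helper93.Eggert.Count
import Pool.Agent.Helper88.Eggert.EggertLocal
import Pool.Agent.Helper88.Eggert.Deriv

set_option autoImplicit false
open Pool Pool.MP_923967_al

namespace Pool.Agent.S02293

/-- For every finite nilpotent commutative semigroup S with absorbing zero and every n ≥ 1, n times the number of nonzero n-th powers in S is at most the number of nonzero elements of S. -/
theorem result :
    ∀ (S : Type) [SemigroupWithZero S] [Finite S],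
      (∀ a b : S, a * b = b * a) →
      (∃ k : ℕ, ∀ l : List S, l.length = k →
        (l.map (fun s => (s : WithOne S))).prod = ((0 : S) : WithOne S)) →
      ∀ n : ℕ, 0 < n →
        n * {y : S | y ≠ 0 ∧ ∃ x : S, (x : WithOne S) ^ n = (y : WithOne S)}.ncard
          ≤ {y : S | y ≠ 0}.ncard := by
  have hcount : Pool.Agent.Helper88.Eggert.CountStatement := by
    intro M R _ _ _ _ p _ _ m hm hloc φ I Z Y hI hZ hY h1 s hs Λ hΛ C hC u hu hKL
    exact Pool.Agent.Helper93.Eggert.count p m hm hloc φ I Z Y hI hZ hY h1 s hs Λ hΛ C hC u hu hKL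
  exact Pool.Agent.Helper82.Egg.frozen (fun p _ A _ _ _ 𝔪 hm hloc Z hZ =>
    Pool.Agent.Helper88.Eggert.eggert_of hcount Pool.Agent.Helper88.Eggert.exists_derivation
      𝔪 hm hloc Z hZ)

end Pool.Agent.S02293
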