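import Pool.Statements.S02863
import Pool.Agent.Helper75.NumSgp

set_option autoImplicit false
open Pool Pool.MP_b9977e_al

namespace Pool.Agent.S02863

/-- Take a numerical semigroup with Frobenius number F and minimal generators g_1..g_e. Every homogeneous element of its toric ideal (grading deg x_i = g_i) outside (variables)·ideal has degree at most e·(#{elements below F} − 1) + Σg_i + 1. -/
theorem result :
    ∀ (S : AddSubmonoid ℕ), {n : ℕ | n ∉ S}.Finite →
    ∀ (F : ℕ), F ∉ S → (∀ n : ℕ, F < n → n ∈ S) →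
    ∀ (e : ℕ) (g : Fin e → ℕ), Function.Injective g →
      Set.range g = {x : ℕ | x ∈ S ∧ x ≠ 0 ∧ ∀ a ∈ S, ∀ b ∈ S, a + b = x → a = 0 ∨ b = 0} →
    ∀ (f : MvPolynomial (Fin e) ℚ) (d : ℕ),
      f ∈ RingHom.ker (MvPolynomial.aeval (fun i : Fin e => (Polynomial.X : Polynomial ℚ) ^ g i)) →
      MvPolynomial.IsWeightedHomogeneous (fun i : Fin e => g i) f d →
      f ∉ Ideal.span (Set.range (MvPolynomial.X : Fin e → MvPolynomial (Fin e) ℚ)) *
            RingHom.ker (MvPolynomial.aeval (fun i : Fin e => (Polynomial.X : Polynomial ℚ) ^ g i)) →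
      d ≤ e * (Set.ncard {γ : ℕ | γ ∈ S ∧ γ < F} - 1) + ∑ i, g i + 1 := by
  intro S _ F hF hF' e g hinj hg f d hker hhom hnot
  exact Pool.Agent.Helper75.NumSgp.main S F hF hF' e g hinj hg f d hker hhom hnot

end Pool.Agent.S02863
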