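import Pool.Statements.S02954
import Pool.Agent.Helper76.Final

set_option autoImplicit false
open Pool Pool.MP_c0dfe1_al

namespace Pool.Agent.S02954

/-- The negation of the preceding statement: For every finitely generated one-relator monoid ⟨A ∣ r=1⟩ whose group of units is finitely generated and Gromov-hyperbolic, it is decidable whether a finite system of equations with constants has a solution in the monoid. -/
theorem result :
    ¬ (∀ (n : ℕ) (r : FreeMonoid (Fin n)) (c : Con (FreeMonoid (Fin n))),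
    c = conGen (fun u v : FreeMonoid (Fin n) => u = r ∧ v = 1) →
    (∃ (S : Finset (c.Quotient)ˣ) (ℓ : (c.Quotient)ˣ → ℕ),
        Subgroup.closure (S : Set (c.Quotient)ˣ) = ⊤ ∧
        (∀ g : (c.Quotient)ˣ, ℓ g = sInf {k : ℕ | ∃ l : List (c.Quotient)ˣ,
            l.length = k ∧ (∀ s ∈ l, s ∈ S ∨ s⁻¹ ∈ S) ∧ l.prod = g}) ∧
        ∃ δ : ℕ, ∀ x y z w : (c.Quotient)ˣ,
          min ((ℓ (w⁻¹ * x) : ℤ) + (ℓ (w⁻¹ * z) : ℤ) - (ℓ (x⁻¹ * z) : ℤ))
              ((ℓ (w⁻¹ * y) : ℤ) + (ℓ (w⁻¹ * z) : ℤ) - (ℓ (y⁻¹ * z) : ℤ)) - (δ : ℤ)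
            ≤ (ℓ (w⁻¹ * x) : ℤ) + (ℓ (w⁻¹ * y) : ℤ) - (ℓ (x⁻¹ * y) : ℤ)) →
    ComputablePred (fun E : List (List (Fin n ⊕ ℕ) × List (Fin n ⊕ ℕ)) =>
      ∃ σ : ℕ → c.Quotient, ∀ e ∈ E,
        (e.1.map (Sum.elim (fun a : Fin n => Con.mk' c (FreeMonoid.of a)) σ)).prod =
        (e.2.map (Sum.elim (fun a : Fin n => Con.mk' c (FreeMonoid.of a)) σ)).prod)) := by
  intro H
  apply Pool.Agent.Helper76.undecidable
  refine H 2 Pool.Agent.Helper76.rr Pool.Agent.Helper76.con0 rfl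
    ⟨∅, fun _ => 0, ?_, ?_, 0, ?_⟩
  · have hsub : Subsingleton (Pool.Agent.Helper76.con0.Quotient)ˣ := by
      refine ⟨fun g h => ?_⟩
      have hg : ∀ g : (Pool.Agent.Helper76.con0.Quotient)ˣ, g = 1 := fun g =>
        Units.ext (Pool.Agent.Helper76.units_trivial _ _ g.mul_inv g.inv_mul)
      rw [hg g, hg h]
    exact Subsingleton.elim _ _
  · intro g
    have hg : g = 1 :=
      Units.ext (Pool.Agent.Helper76.units_trivial _ _ g.mul_inv g.inv_mul)
    symm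
    rw [Nat.sInf_eq_zero]
    left
    exact ⟨[], rfl, by simp, by simp [hg]⟩
  · intro x y z w
    simp

end Pool.Agent.S02954
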