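import Pool.Statements.S03673
import Pool.Agent.Helper64.Hit.Final

set_option autoImplicit false
open Filter Topology
open Pool Pool.MP_01865a_an

namespace Pool.Agent.S03673

/-- There is a real Banach space that is hereditarily indecomposable and has a Schauder basis such that every infinite-dimensional closed subspace admits successive intervals I_K where, for each K, it does not K-embed into the closed span of the basis vectors outside I_K. -/
theorem result :
  ∃ (X : Type) (_ : NormedAddCommGroup X) (_ : NormedSpace ℝ X), CompleteSpace X ∧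
    (∀ U W : Submodule ℝ X, IsClosed (U : Set X) → IsClosed (W : Set X) →
      ¬ FiniteDimensional ℝ U → ¬ FiniteDimensional ℝ W → Disjoint U W →
      ¬ IsClosed ((U ⊔ W : Submodule ℝ X) : Set X)) ∧
    ∃ e : ℕ → X,
      (∀ x : X, ∃! c : ℕ → ℝ,
        Tendsto (fun N => ∑ n ∈ Finset.range N, c n • e n) atTop (𝓝 x)) ∧
      ∀ Y : Submodule ℝ X, IsClosed (Y : Set X) → ¬ FiniteDimensional ℝ Y →
        ∃ a b : ℕ → ℕ, (∀ k, a k ≤ b k ∧ b k < a (k + 1)) ∧
          ∀ K : ℕ, ¬ ∃ T : Y →L[ℝ] X,
            (∀ y : Y, ‖y‖ ≤ ‖T y‖ ∧ ‖T y‖ ≤ (K : ℝ) * ‖y‖) ∧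
            ∀ y : Y, T y ∈
              (Submodule.span ℝ (e '' {n | n < a K ∨ b K < n})).topologicalClosure := by
  exact Pool.Agent.Helper64.Hit.main

end Pool.Agent.S03673
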