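import Pool.Statements.S03813
import Pool.Agent.Helper57.Mp.Frozen

set_option autoImplicit false
open Filter Topology MeasureTheory
open scoped ENNReal
open Pool Pool.MP_0dd021_an

namespace Pool.Agent.S03813

/-- For every p in (1,∞), p≠2, every uniform limit of step functions on the circle that is an ℓ^p Fourier-coefficient multiplier is the uniform limit of step functions whose ℓ^p multiplier norms are uniformly bounded. -/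
theorem result :
  ∀ (cf : (ℝ → ℂ) → ℤ → ℂ),
    (∀ (g : ℝ → ℂ) (n : ℤ), cf g n =
      ∫ x in (0:ℝ)..1, Complex.exp (-(2 * (Real.pi : ℂ) * Complex.I * (n : ℂ) * (x : ℂ))) * g x) →
  ∀ (Step : (ℝ → ℂ) → Prop),
    (∀ g : ℝ → ℂ, Step g ↔ ∃ (m : ℕ) (t : Fin (m + 1) → ℝ) (c : Fin m → ℂ),
      StrictMono t ∧ t 0 = 0 ∧ t (Fin.last m) = 1 ∧
      ∀ i : Fin m, ∀ x ∈ Set.Ioo (t i.castSucc) (t i.succ), g x = c i) →
  ∀ (p : ℝ), 1 < p → p ≠ 2 →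
  ∀ (Mb : (ℝ → ℂ) → ℝ → Prop),
    (∀ (g : ℝ → ℂ) (C : ℝ), Mb g C ↔ ∀ a : ℤ →₀ ℂ,
      ∑' n : ℤ, ENNReal.ofReal ‖∑ k ∈ a.support, cf g (n - k) * a k‖ ^ p
        ≤ ENNReal.ofReal C ^ p * ∑ k ∈ a.support, ENNReal.ofReal ‖a k‖ ^ p) →
  ∀ f : ℝ → ℂ,
    (∀ ε : ℝ≥0∞, 0 < ε → ∃ g : ℝ → ℂ, Step g ∧
      eLpNorm (fun x => f x - g x) ⊤ (volume.restrict (Set.Icc (0:ℝ) 1)) < ε) →
    (∃ C : ℝ, Mb f C) →
    ∃ g : ℕ → ℝ → ℂ, (∀ j, Step (g j)) ∧ (∃ C : ℝ, ∀ j, Mb (g j) C) ∧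
      Tendsto (fun j => eLpNorm (fun x => g j x - f x) ⊤ (volume.restrict (Set.Icc (0:ℝ) 1)))
        atTop (𝓝 0) :=
  Pool.Agent.Helper57.Mp.frozen_result

end Pool.Agent.S03813
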