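import Pool.Statements.S03894
import Pool.Agent.Helper50.GS.Main

set_option autoImplicit false
open Pool Pool.MP_151819_an

namespace Pool.Agent.S03894

/-- The negation of the preceding statement: For every scattered compact Hausdorff K, if C(K) has an equivalent strictly convex norm, then C(K) has an equivalent norm that is Gâteaux differentiable at every nonzero point. -/
theorem result :
    ¬ (∀ (K : Type) [TopologicalSpace K] [CompactSpace K] [T2Space K],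
      (∀ S : Set K, S.Nonempty → ∃ x ∈ S, ∃ U : Set K, IsOpen U ∧ U ∩ S = {x}) →
      (∃ N : C(K, ℝ) → ℝ,
          (∀ f g : C(K, ℝ), N (f + g) ≤ N f + N g) ∧
          (∀ (a : ℝ) (f : C(K, ℝ)), N (a • f) = |a| * N f) ∧
          (∃ c C : ℝ, 0 < c ∧ 0 < C ∧ ∀ f : C(K, ℝ), c * ‖f‖ ≤ N f ∧ N f ≤ C * ‖f‖) ∧
          (∀ f g : C(K, ℝ), N f = 1 → N g = 1 → f ≠ g → N (f + g) < 2)) →
      (∃ N : C(K, ℝ) → ℝ,
          (∀ f g : C(K, ℝ), N (f + g) ≤ N f + N g) ∧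
          (∀ (a : ℝ) (f : C(K, ℝ)), N (a • f) = |a| * N f) ∧
          (∃ c C : ℝ, 0 < c ∧ 0 < C ∧ ∀ f : C(K, ℝ), c * ‖f‖ ≤ N f ∧ N f ≤ C * ‖f‖) ∧
          (∀ f : C(K, ℝ), f ≠ 0 →
            ∃ L : C(K, ℝ) →L[ℝ] ℝ, ∀ v : C(K, ℝ), HasLineDerivAt ℝ N (L v) f v))) := by
  exact Pool.Agent.Helper50.GS.main_result

end Pool.Agent.S03894
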