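import Pool.Statements.S04901
import Pool.Agent.Helper15.CK.Main

set_option autoImplicit false
open Pool Pool.MP_67fc43_an

namespace Pool.Agent.S04901

/-- There is a compact Hausdorff space K such that the real space C(K) is not linearly homeomorphic to C(K)⊕C(K) but is linearly homeomorphic to C(K)⊕C(K)⊕C(K). -/
theorem result :
    ∃ (K : Type) (_ : TopologicalSpace K) (_ : CompactSpace K) (_ : T2Space K),
      IsEmpty (C(K, ℝ) ≃L[ℝ] C(K, ℝ) × C(K, ℝ)) ∧
      Nonempty (C(K, ℝ) ≃L[ℝ] C(K, ℝ) × C(K, ℝ) × C(K, ℝ)) := by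
  obtain ⟨Γ⟩ := Pool.Agent.Helper15.CK.nonempty_family
  exact ⟨Γ.KK, inferInstance, inferInstance, inferInstance, Γ.no_square, Γ.yes_cube⟩

end Pool.Agent.S04901
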