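import Pool.Statements.S04909
import Pool.Agent.Helper67.Inj.Main

set_option autoImplicit false
open Pool Pool.MP_68d413_an

namespace Pool.Agent.S04909

/-- For every complex Hilbert space H and von Neumann algebra M in B(H): if some bounded linear projection of B(H) onto M exists, then a linear projection of B(H) onto M of norm at most one exists (equivalently, M is injective). -/
theorem result :
    ∀ (H : Type) [NormedAddCommGroup H] [InnerProductSpace ℂ H] [CompleteSpace H]
      (M : VonNeumannAlgebra H),
      (∃ P : (H →L[ℂ] H) →L[ℂ] (H →L[ℂ] H),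
          (∀ x, P x ∈ M) ∧ (∀ m ∈ M, P m = m)) →
      (∃ Q : (H →L[ℂ] H) →L[ℂ] (H →L[ℂ] H),
          (∀ x, Q x ∈ M) ∧ (∀ m ∈ M, Q m = m) ∧ ‖Q‖ ≤ 1) := by
  intro H _ _ _ M h
  exact Pool.Agent.Helper67.Inj.main M h

end Pool.Agent.S04909
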