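import Pool.Statements.S04968
import Pool.Agent.Helper63.KFinal

set_option autoImplicit false
open Pool Pool.MP_6cdb1a_an

namespace Pool.Agent.S04968

/-- The negation of the preceding statement: For every commuting pair on a complex Hilbert space that is subnormal and cyclic, and every point, the row map (u,v)↦(S1-μ1)u+(S2-μ2)v is onto exactly when the Koszul complex of the shifted pair is exact, i.e. right spectrum equals Taylor spectrum. -/
theorem result :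
    ¬ (∀ (H : Type) [NormedAddCommGroup H] [InnerProductSpace ℂ H] [CompleteSpace H]
      (S₁ S₂ : H →L[ℂ] H),
      S₁ * S₂ = S₂ * S₁ →
      (∃ (K : Type) (_ : NormedAddCommGroup K) (_ : InnerProductSpace ℂ K) (_ : CompleteSpace K)
          (V : H →L[ℂ] K) (N₁ N₂ : K →L[ℂ] K),
          (∀ x : H, ‖V x‖ = ‖x‖) ∧ IsStarNormal N₁ ∧ IsStarNormal N₂ ∧
          N₁ * N₂ = N₂ * N₁ ∧ N₁.comp V = V.comp S₁ ∧ N₂.comp V = V.comp S₂) →
      (∃ x : H, Dense ((Submodule.span ℂ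
          (Set.range (fun p : ℕ × ℕ => (S₁ ^ p.1 * S₂ ^ p.2) x)) : Submodule ℂ H) : Set H)) →
      ∀ μ₁ μ₂ : ℂ,
        ((∀ z : H, ∃ u v : H, (S₁ - μ₁ • (1 : H →L[ℂ] H)) u + (S₂ - μ₂ • (1 : H →L[ℂ] H)) v = z) ↔
          ((∀ z : H, ∃ u v : H,
              (S₁ - μ₁ • (1 : H →L[ℂ] H)) u + (S₂ - μ₂ • (1 : H →L[ℂ] H)) v = z) ∧
           (∀ u v : H,
              (S₁ - μ₁ • (1 : H →L[ℂ] H)) u + (S₂ - μ₂ • (1 : H →L[ℂ] H)) v = 0 →
              ∃ x : H, u = (S₂ - μ₂ • (1 : H →L[ℂ] H)) x ∧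
                v = -((S₁ - μ₁ • (1 : H →L[ℂ] H)) x)) ∧
           (∀ x : H, (S₂ - μ₂ • (1 : H →L[ℂ] H)) x = 0 →
              (S₁ - μ₁ • (1 : H →L[ℂ] H)) x = 0 → x = 0)))) :=
  Pool.Agent.Helper63.Koszul.final

end Pool.Agent.S04968
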