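import Pool.Statements.S05324
import Pool.Agent.Helper64.Tight.Refl

set_option autoImplicit false
open Pool Pool.MP_8b637a_an

namespace Pool.Agent.S05324

/-- The negation of the preceding statement: Every infinite-dimensional reflexive real Banach lattice has a sequence of nonzero pairwise disjoint elements whose closed linear span is complemented, i.e. is the range of a bounded linear projection. -/
theorem result :
    ¬ (∀ (E : Type) [NormedAddCommGroup E] [Lattice E] [IsOrderedAddMonoid E] [HasSolidNorm E]
      [NormedSpace ℝ E] [PosSMulMono ℝ E] [CompleteSpace E],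
      Function.Surjective (NormedSpace.inclusionInDoubleDual ℝ E) →
      ¬ FiniteDimensional ℝ E →
      ∃ x : ℕ → E, (∀ n, x n ≠ 0) ∧ (∀ n m, n ≠ m → |x n| ⊓ |x m| = 0) ∧
        (Submodule.span ℝ (Set.range x)).topologicalClosure.ClosedComplemented) := by
  intro h
  obtain ⟨x, hx, hd, hc⟩ := h Pool.Agent.Helper64.Tight.E Pool.Agent.Helper64.Tight.reflexive
    Pool.Agent.Helper64.Tight.infinite
  exact Pool.Agent.Helper64.Tight.red x hx hd hc

end Pool.Agent.S05324
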