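import Pool.Statements.S06277
import Pool.Agent.Helper64.Cal.Fin

set_option autoImplicit false
open Pool Pool.MP_d4c2ba_an

namespace Pool.Agent.S06277

/-- There is a complex Banach space X and a continuous algebra homomorphism from bounded operators on X to operators on ℓ2 whose kernel is exactly the compact operators and whose image is exactly scalars plus compacts. -/
theorem result :
    ∃ (X : Type) (_ : NormedAddCommGroup X) (_ : NormedSpace ℂ X) (_ : CompleteSpace X),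
      ∃ φ : (X →L[ℂ] X) →ₐ[ℂ] (lp (fun _ : ℕ => ℂ) 2 →L[ℂ] lp (fun _ : ℕ => ℂ) 2),
        Continuous φ ∧
        (∀ T : lp (fun _ : ℕ => ℂ) 2 →L[ℂ] lp (fun _ : ℕ => ℂ) 2,
          (∃ S : X →L[ℂ] X, φ S = T) ↔
            ∃ c : ℂ, ∃ K : lp (fun _ : ℕ => ℂ) 2 →L[ℂ] lp (fun _ : ℕ => ℂ) 2,
              IsCompactOperator K ∧ T = c • (1 : lp (fun _ : ℕ => ℂ) 2 →L[ℂ] lp (fun _ : ℕ => ℂ) 2) + K) ∧
        (∀ S : X →L[ℂ] X, φ S = 0 ↔ IsCompactOperator S) := by
  exact Pool.Agent.Helper64.Cal.main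

end Pool.Agent.S06277
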