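import Pool.Statements.S06348
import Pool.Agent.Helper67.Bump4

set_option autoImplicit false
open MeasureTheory
open scoped ENNReal
open Pool Pool.MP_d895c5_an

namespace Pool.Agent.S06348

/-- The negation of the preceding statement: For all d≥1, 0<α<d, 1<p, weights u,σ and Young functions Φ,Ψ whose complements satisfy B_p and B_p', if both separated bump constants K1,K2 are finite then f ↦ I_α(fσ) is bounded from L^p(σ) to L^p(u). -/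
theorem result :
    ¬ (∀ (d : ℕ) (α p : ℝ), 1 ≤ d → 0 < α → α < (d : ℝ) → 1 < p →
  ∀ (u σ : (Fin d → ℝ) → ℝ), (∀ x, 0 ≤ u x) → (∀ x, 0 ≤ σ x) →
    LocallyIntegrable u volume → LocallyIntegrable σ volume →
  ∀ (Φ Ψ : ℝ → ℝ),
    (ConvexOn ℝ (Set.Ici 0) Φ ∧ MonotoneOn Φ (Set.Ici 0) ∧ Φ 0 = 0 ∧
      Filter.Tendsto (fun t => Φ t / t) Filter.atTop Filter.atTop) →
    (ConvexOn ℝ (Set.Ici 0) Ψ ∧ MonotoneOn Ψ (Set.Ici 0) ∧ Ψ 0 = 0 ∧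
      Filter.Tendsto (fun t => Ψ t / t) Filter.atTop Filter.atTop) →
    (∫⁻ t in Set.Ioi (1:ℝ),
        ENNReal.ofReal ((⨆ s : Set.Ici (0:ℝ), (t * (s:ℝ) - Φ s)) * t ^ (-p) / t)) < ⊤ →
    (∫⁻ t in Set.Ioi (1:ℝ),
        ENNReal.ofReal ((⨆ s : Set.Ici (0:ℝ), (t * (s:ℝ) - Ψ s)) * t ^ (-(p / (p - 1))) / t)) < ⊤ →
    (∃ K : ℝ, ∀ Q : Set (Fin d → ℝ),
      (∃ (a : Fin d → ℝ) (ℓ : ℝ), 0 < ℓ ∧ Q = Set.univ.pi (fun i => Set.Ico (a i) (a i + ℓ))) →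
      sInf ((fun l : ℝ => ENNReal.ofReal l) ''
          {l : ℝ | 0 < l ∧ ∫⁻ x in Q, ENNReal.ofReal (Φ (σ x ^ (1 - 1 / p) / l)) ≤ volume Q})
        * ((∫⁻ x in Q, ENNReal.ofReal (u x)) / volume Q) ^ (1 / p)
        * volume Q ^ (α / (d : ℝ)) ≤ ENNReal.ofReal K) →
    (∃ K : ℝ, ∀ Q : Set (Fin d → ℝ),
      (∃ (a : Fin d → ℝ) (ℓ : ℝ), 0 < ℓ ∧ Q = Set.univ.pi (fun i => Set.Ico (a i) (a i + ℓ))) →
      ((∫⁻ x in Q, ENNReal.ofReal (σ x)) / volume Q) ^ (1 - 1 / p)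
        * sInf ((fun l : ℝ => ENNReal.ofReal l) ''
          {l : ℝ | 0 < l ∧ ∫⁻ x in Q, ENNReal.ofReal (Ψ (u x ^ (1 / p) / l)) ≤ volume Q})
        * volume Q ^ (α / (d : ℝ)) ≤ ENNReal.ofReal K) →
    ∃ C : ℝ, ∀ f : (Fin d → ℝ) → ℝ≥0∞, Measurable f →
      ∫⁻ x, (∫⁻ y, f y * ENNReal.ofReal (σ y) *
          ENNReal.ofReal (Real.sqrt (∑ i, (x i - y i) ^ 2) ^ (α - (d : ℝ)))) ^ p
          * ENNReal.ofReal (u x)
        ≤ ENNReal.ofReal C * ∫⁻ y, f y ^ p * ENNReal.ofReal (σ y)) := by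
  intro H
  have hY : ConvexOn ℝ (Set.Ici 0) Pool.Agent.Helper67.Bump.Phi ∧
      MonotoneOn Pool.Agent.Helper67.Bump.Phi (Set.Ici 0) ∧ Pool.Agent.Helper67.Bump.Phi 0 = 0 ∧
      Filter.Tendsto (fun t => Pool.Agent.Helper67.Bump.Phi t / t) Filter.atTop Filter.atTop :=
    ⟨Pool.Agent.Helper67.Bump.Phi_convexOn, Pool.Agent.Helper67.Bump.Phi_monotoneOn,
      Pool.Agent.Helper67.Bump.Phi_zero, Pool.Agent.Helper67.Bump.Phi_div_tendsto⟩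
  obtain ⟨C, hC⟩ := H 2 1 2 (by norm_num) (by norm_num) (by norm_num) (by norm_num)
    Pool.Agent.Helper67.Bump.ww Pool.Agent.Helper67.Bump.ww
    Pool.Agent.Helper67.Bump.ww_nonneg Pool.Agent.Helper67.Bump.ww_nonneg
    Pool.Agent.Helper67.Bump.ww_locallyIntegrable Pool.Agent.Helper67.Bump.ww_locallyIntegrable
    Pool.Agent.Helper67.Bump.Phi Pool.Agent.Helper67.Bump.Phi hY hY
    Pool.Agent.Helper67.Bump.conj_lintegral (by
      have e : -((2:ℝ) / (2 - 1)) = -2 := by norm_num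
      rw [e]
      exact Pool.Agent.Helper67.Bump.conj_lintegral)
    (by
      refine ⟨1, ?_⟩
      rintro Q ⟨a, s, hs, rfl⟩
      rw [ENNReal.ofReal_one]
      exact Pool.Agent.Helper67.Bump.bump_product a s hs)
    (by
      refine ⟨1, ?_⟩
      rintro Q ⟨a, s, hs, rfl⟩
      rw [ENNReal.ofReal_one]
      exact Pool.Agent.Helper67.Bump.bump_product' a s hs)
  exact Pool.Agent.Helper67.Bump.no_bound C hC

end Pool.Agent.S06348
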