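import Pool.Statements.S07603
import Pool.Agent.Helper32.Limit

set_option autoImplicit false
open Pool Pool.MP_208f9a_co

namespace Pool.Agent.S07603

/-- For every fixed t ≥ 1, the ordered Ramsey number of the t-th power of the monotone path on n vertices (two colours) satisfies log R / log n → 2 as n → ∞, i.e. R = n^(2+o(1)). -/
theorem result :
    ∀ t : ℕ, 1 ≤ t →
      Filter.Tendsto
        (fun n : ℕ =>
          Real.log
            (((sInf {N : ℕ | ∀ G : SimpleGraph (Fin N), ∃ f : Fin n → Fin N, StrictMono f ∧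
                ((∀ i j : Fin n, i < j → (j : ℕ) ≤ (i : ℕ) + t → G.Adj (f i) (f j)) ∨
                 (∀ i j : Fin n, i < j → (j : ℕ) ≤ (i : ℕ) + t → Gᶜ.Adj (f i) (f j)))}) : ℕ) : ℝ)
            / Real.log (n : ℝ))
        Filter.atTop (nhds 2) := by
  intro t ht
  exact Pool.Agent.Helper32.PowPath.limit t ht

end Pool.Agent.S07603
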