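import Pool.Statements.S07913
import Pool.Agent.Helper33.CycGraph

set_option autoImplicit false
open Pool Pool.MP_2fc3d5_co

namespace Pool.Agent.S07913

/-- Let f(n) be the maximum number of edges of an n-vertex graph in which distinct cycles have distinct lengths. For every ε>0 there are infinitely many n with (f(n)−n)/√n < √3+ε, i.e. the liminf is at most √3. -/
theorem result :
    ∀ ε : ℝ, 0 < ε → ∀ N : ℕ, ∃ n : ℕ, N ≤ n ∧
      (((sSup {m : ℕ | ∃ G : SimpleGraph (Fin n),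
          (∀ (u v : Fin n) (p : G.Walk u u) (q : G.Walk v v),
            p.IsCycle → q.IsCycle → p.length = q.length →
              {e | e ∈ p.edges} = {e | e ∈ q.edges}) ∧
          G.edgeSet.ncard = m} : ℕ) : ℝ) - (n : ℝ)) / Real.sqrt (n : ℝ)
        < Real.sqrt 3 + ε := by
  intro ε hε N
  set T : ℝ := Real.sqrt 3 * (Real.sqrt 3 + ε) / ε + 100 with hT
  have h3 : 0 < Real.sqrt 3 := Real.sqrt_pos.mpr (by norm_num)
  have h3' : Real.sqrt 3 ≤ 2 := by
    rw [Real.sqrt_le_left (by norm_num)]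
    norm_num
  have h3s : Real.sqrt 3 * Real.sqrt 3 = 3 := Real.mul_self_sqrt (by norm_num)
  have hT1 : 100 ≤ T := by
    rw [hT]
    have : 0 ≤ Real.sqrt 3 * (Real.sqrt 3 + ε) / ε := by positivity
    linarith
  refine ⟨max N ⌈T ^ 2⌉₊, le_max_left _ _, ?_⟩
  set n : ℕ := max N ⌈T ^ 2⌉₊ with hn
  have hnT : T ≤ Real.sqrt n := by
    apply Real.le_sqrt_of_sq_le
    calc T ^ 2 ≤ (⌈T ^ 2⌉₊ : ℝ) := Nat.le_ceil _
      _ ≤ n := by rw [hn]; exact_mod_cast le_max_right _ _
  have hs : 0 < Real.sqrt n := by linarith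
  have hss : Real.sqrt n * Real.sqrt n = n := Real.mul_self_sqrt (by positivity)
  have hmem := Nat.sSup_mem (s := {m : ℕ | ∃ G : SimpleGraph (Fin n),
          (∀ (u v : Fin n) (p : G.Walk u u) (q : G.Walk v v),
            p.IsCycle → q.IsCycle → p.length = q.length →
              {e | e ∈ p.edges} = {e | e ∈ q.edges}) ∧
          G.edgeSet.ncard = m})
    ⟨(⊥ : SimpleGraph (Fin n)).edgeSet.ncard, ⊥, fun u v p q hp _ _ => absurd rfl hp.ne_bot, rfl⟩
    ⟨(Set.univ : Set (Sym2 (Fin n))).ncard, by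
      rintro m ⟨G, _, rfl⟩
      exact Set.ncard_le_ncard (Set.subset_univ _) Set.finite_univ⟩
  obtain ⟨G, hG, hGm⟩ := hmem
  rw [← hGm]
  set p : ℝ := Real.sqrt 3 / (2 * Real.sqrt n) with hp
  have hp0 : 0 < p := by positivity
  have hpε : p * (Real.sqrt 3 + ε) < ε := by
    rw [hp, div_mul_eq_mul_div, div_lt_iff₀ (by positivity)]
    have h4 : Real.sqrt 3 * (Real.sqrt 3 + ε) / ε ≤ Real.sqrt n := by linarith
    rw [div_le_iff₀ hε] at h4
    nlinarith
  have hp' : p ≤ 3 / 50 := by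
    rw [hp, div_le_iff₀ (by positivity)]
    nlinarith
  have hb := Pool.Agent.Helper33.Cyc.graph_bound G hG p hp0 hp'
  rw [Fintype.card_fin] at hb
  set m : ℝ := (G.edgeSet.ncard : ℝ) with hm
  have e1 : 3 / 4 / p = Real.sqrt 3 / 2 * Real.sqrt n := by
    rw [hp]
    field_simp
    nlinarith
  have e2 : p * n = Real.sqrt 3 / 2 * Real.sqrt n := by
    have h6 : p * n = Real.sqrt 3 / (2 * Real.sqrt n) * (Real.sqrt n * Real.sqrt n) := by
      rw [hss]
    rw [h6]
    field_simp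
  have hK : (m - n) * (1 - p) ≤ Real.sqrt 3 * Real.sqrt n := by
    have : (m - n) * (1 - p) = m - n - p * m + p * n := by ring
    rw [this, e2]
    linarith
  rw [div_lt_iff₀ hs]
  have h1p : 0 < 1 - p := by linarith
  have hlt : Real.sqrt 3 * Real.sqrt n < (Real.sqrt 3 + ε) * Real.sqrt n * (1 - p) := by
    have : Real.sqrt 3 < (Real.sqrt 3 + ε) * (1 - p) := by nlinarith
    nlinarith
  exact lt_of_mul_lt_mul_right (lt_of_le_of_lt hK hlt) h1p.le

end Pool.Agent.S07913
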