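import Pool.Statements.S08183
import Pool.Agent.Helper34.Shear

set_option autoImplicit false
open Pool Pool.MP_3a59ef_co

namespace Pool.Agent.S08183

/-- There is c>0 such that every finite planar point set of size n with at most √n points on any line contains at least c√n points with no three collinear. -/
theorem result :
    ∃ c : ℝ, 0 < c ∧
      ∀ P : Finset (ℝ × ℝ),
        (∀ T ⊆ P, Collinear ℝ (T : Set (ℝ × ℝ)) → (T.card : ℝ) ≤ Real.sqrt (P.card : ℝ)) →
        ∃ S ⊆ P,
          (∀ T ⊆ S, T.card = 3 → ¬ Collinear ℝ (T : Set (ℝ × ℝ))) ∧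
          c * Real.sqrt (P.card : ℝ) ≤ (S.card : ℝ) := by
  exact Pool.Agent.Helper34.main_small_large

end Pool.Agent.S08183
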