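import Pool.Statements.S08665
import Pool.Agent.Helper47.GomZ.Z
import Pool.Agent.Helper93.Gomoku.Extract

set_option autoImplicit false
open Pool Pool.MP_4d9d50_co

namespace Pool.Agent.S08665

/-- There is a bound N and a first-player strategy on the infinite grid such that, against any legal opponent, the first player completes five in a row (any line direction) within N of its moves, before the opponent has five. -/
theorem result :
    ∃ N : ℕ, ∃ σ : List (ℤ × ℤ) → ℤ × ℤ,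
      ∀ p : ℕ → ℤ × ℤ,
        (∀ k : ℕ, p (2 * k) = σ (List.ofFn (fun i : Fin (2 * k) => p (i : ℕ)))) →
        (∀ j i : ℕ, i < 2 * j + 1 → p i ≠ p (2 * j + 1)) →
        ∃ m : ℕ, m < N ∧
          (∀ k : ℕ, k ≤ m → ∀ i : ℕ, i < 2 * k → p i ≠ p (2 * k)) ∧
          (∃ a d : ℤ × ℤ,
              (d = (1, 0) ∨ d = (0, 1) ∨ d = (1, 1) ∨ d = (1, -1)) ∧
              ∀ t : ℤ, 0 ≤ t → t < 5 →
                ∃ i : ℕ, i ≤ m ∧ p (2 * i) = (a.1 + t * d.1, a.2 + t * d.2)) ∧
          ¬ (∃ a d : ℤ × ℤ,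
              (d = (1, 0) ∨ d = (0, 1) ∨ d = (1, 1) ∨ d = (1, -1)) ∧
              ∀ t : ℤ, 0 ≤ t → t < 5 →
                ∃ i : ℕ, i < m ∧ p (2 * i + 1) = (a.1 + t * d.1, a.2 + t * d.2)) := by
  obtain ⟨n, hn⟩ := Pool.Agent.Gomoku.win_all
  exact Pool.Agent.Gomoku.statement_of_win hn

end Pool.Agent.S08665
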