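import Pool.Statements.S09274
import Pool.Agent.STF.Zz
-- import your own Pool.Agent.* helpers here

set_option autoImplicit false
open Pool Pool.MP_680cfa_co

namespace Pool.Agent.S09274

/-- The negation of the preceding statement: Every Stanley sequence a (strictly increasing, 3-AP-free, each term after an initial block the least integer keeping the set 3-AP-free) satisfies a_n ≥ C·n^(1+ε) for some ε>0, C>0 and all large n. -/
theorem result :
    ¬ (∀ a : ℕ → ℕ,
      StrictMono a →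
      ThreeAPFree (Set.range a) →
      (∃ k : ℕ, ∀ n : ℕ, k ≤ n → ∀ m : ℕ, a n < m → m < a (n + 1) →
          ¬ ThreeAPFree (insert m (a '' Set.Iic n))) →
      ∃ ε : ℝ, 0 < ε ∧ ∃ C : ℝ, 0 < C ∧ ∃ N : ℕ, ∀ n : ℕ, N ≤ n →
        C * (n : ℝ) ^ (1 + ε) ≤ (a n : ℝ)) := by
  intro h
  obtain ⟨a, h1, h2, h3, h4⟩ := Pool.Agent.STF.main2
  obtain ⟨ε, hε, C, hC, N, hN⟩ := h a h1 h2 h3
  obtain ⟨n, hn, hlt⟩ := h4 ε hε C hC N
  exact absurd (hN n hn) (not_le.mpr hlt)

end Pool.Agent.S09274
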