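import Pool.Statements.S11713
import Pool.Agent.Helper32.Lat.Final
import Pool.Agent.Helper32.Lat.Round
-- import your own Pool.Agent.* helpers here

set_option autoImplicit false
open Pool Pool.MP_d62fe1_co

namespace Pool.Agent.S11713

/-- For every c>2, for all large N, Breaker has a strategy in the (2:2) Maker-Breaker game on [N]^2 (Maker first) so that Maker never owns a q×q parallelogram lattice, q = floor(c·sqrt(log2 N)). -/
theorem result :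
    ∀ c : ℝ, 2 < c → ∃ N₀ : ℕ, ∀ N : ℕ, N₀ ≤ N →
      ∀ S : Finset (ℤ × ℤ),
        S = (Finset.Icc (1 : ℤ) (N : ℤ)) ×ˢ (Finset.Icc (1 : ℤ) (N : ℤ)) →
        ∃ σ : Finset (ℤ × ℤ) → Finset (ℤ × ℤ) → Finset (ℤ × ℤ),
          (∀ X Y : Finset (ℤ × ℤ), X ⊆ S → Y ⊆ S → Disjoint X Y →
            σ X Y ⊆ S \ (X ∪ Y) ∧ (σ X Y).card = min 2 (S \ (X ∪ Y)).card) ∧
          ∀ M B : ℕ → Finset (ℤ × ℤ), M 0 = ∅ → B 0 = ∅ →
            (∀ k : ℕ, M k ⊆ M (k + 1) ∧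
              M (k + 1) \ M k ⊆ S \ (M k ∪ B k) ∧
              (M (k + 1) \ M k).card = min 2 (S \ (M k ∪ B k)).card ∧
              B (k + 1) = B k ∪ σ (M (k + 1)) (B k)) →
            ∀ k : ℕ, ¬ ∃ P u v : ℤ × ℤ, u.1 * v.2 - u.2 * v.1 ≠ 0 ∧
              ∀ i j : ℕ, i < ⌊c * Real.sqrt (Real.logb 2 (N : ℝ))⌋₊ →
                j < ⌊c * Real.sqrt (Real.logb 2 (N : ℝ))⌋₊ →
                P + (i : ℤ) • u + (j : ℤ) • v ∈ M k :=
  Pool.Agent.Helper32.Lat.final_of_round (fun _ _ s => s.exists_inv)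

end Pool.Agent.S11713
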