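import Pool.Statements.S11857
import Pool.Agent.Helper73.Star.F2

set_option autoImplicit false
open Pool Pool.MP_dc96bc_co

namespace Pool.Agent.S11857

/-- Any finite simple matroid whose ground set is not the union of two proper flats and whose characteristic polynomial is (x−1)(x−2)…(x−n) is isomorphic to the cycle matroid of the complete graph on n+1 vertices. -/
theorem result :
    ∀ (α : Type) [Fintype α] [DecidableEq α] (M : Matroid α) (n : ℕ) (r : Finset α → ℕ),
      M.E = Set.univ →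
      (∀ a b : α, M.Indep ({a, b} : Set α)) →
      (∀ X : Finset α, IsGreatest
          {k : ℕ | ∃ I : Finset α, I ⊆ X ∧ M.Indep (↑I : Set α) ∧ I.card = k} (r X)) →
      (¬ ∃ F₁ F₂ : Finset α,
          (∀ e, e ∉ F₁ → r F₁ < r (insert e F₁)) ∧
          (∀ e, e ∉ F₂ → r F₂ < r (insert e F₂)) ∧
          F₁ ≠ Finset.univ ∧ F₂ ≠ Finset.univ ∧ F₁ ∪ F₂ = Finset.univ) →
      (∑ X : Finset α, (-1 : Polynomial ℤ) ^ X.card * Polynomial.X ^ (r Finset.univ - r X))
        = ∏ i ∈ Finset.Icc 1 n, (Polynomial.X - Polynomial.C (i : ℤ)) →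
      ∃ e : α ≃ {s : Sym2 (Fin (n + 1)) // ¬ s.IsDiag},
        ∀ I : Set α, M.Indep I ↔
          (SimpleGraph.fromEdgeSet (Subtype.val '' (e '' I))).IsAcyclic := by
  intro α _ _ M n r hE hp hr hround hchi
  have hrr : Pool.Agent.Helper46.FF.IsRank M r := hr
  refine Pool.Agent.Helper46.FF.isKn_of_MUI_min n hE hp hrr hround hchi ?_
  intro S T hST _ hlt hR _
  exact Pool.Agent.Helper73.ST.F2.MUI_all hrr.rankFn hST hlt hR

end Pool.Agent.S11857
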