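import Pool.Statements.S12936

set_option autoImplicit false
open Pool Pool.MP_2a9133_gt

namespace Pool.Agent.S12936

/-- first coordinate of the spiral -/
noncomputable def rho (t : ℝ) : ℝ := t / (1 + |t|)

/-- the double spiral -/
noncomputable def spiral (t : ℝ) : ℝ × ℂ := (rho t, 3 * Complex.exp (|t| * Complex.I))

/-- the underlying set of the counterexample -/
def space : Set (ℝ × ℂ) := Set.range spiral ∪ {((1 : ℝ), (3 : ℂ))}

lemma one_add_abs_pos (t : ℝ) : 0 < 1 + |t| := by positivity

lemma continuous_rho : Continuous rho := by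
  unfold rho
  refine Continuous.div continuous_id (continuous_const.add continuous_abs) ?_
  intro t
  exact (one_add_abs_pos t).ne'

lemma continuous_spiral : Continuous spiral := by
  unfold spiral
  refine Continuous.prodMk continuous_rho ?_
  refine continuous_const.mul (Complex.continuous_exp.comp ?_)
  exact (Complex.continuous_ofReal.comp continuous_abs).mul continuous_const

lemma abs_rho (t : ℝ) : |rho t| = |t| / (1 + |t|) := by
  unfold rho
  rw [abs_div, abs_of_pos (one_add_abs_pos t)]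

lemma abs_rho_lt (t : ℝ) : |rho t| < 1 := by
  rw [abs_rho, div_lt_one (one_add_abs_pos t)]
  linarith

lemma abs_eq_of_abs_rho_eq {s t : ℝ} (h : |rho s| = |rho t|) : |s| = |t| := by
  rw [abs_rho, abs_rho, div_eq_div_iff (one_add_abs_pos s).ne' (one_add_abs_pos t).ne'] at h
  nlinarith [abs_nonneg s, abs_nonneg t]

lemma zero_mem : spiral 0 ∈ space := Or.inl ⟨0, rfl⟩

lemma top_mem : ((1 : ℝ), (3 : ℂ)) ∈ space := Or.inr rfl

lemma isConnected_space : IsConnected space := by
  have h1 : IsConnected (Set.range spiral) := isConnected_range continuous_spiral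
  refine h1.subset_closure Set.subset_union_left ?_
  intro x hx
  rcases hx with hx | hx
  · exact subset_closure hx
  · rw [Set.mem_singleton_iff] at hx
    subst hx
    rw [mem_closure_iff_seq_limit]
    refine ⟨fun n : ℕ => spiral (n * (2 * Real.pi)), fun n => ⟨_, rfl⟩, ?_⟩
    have h2 : ∀ n : ℕ, spiral (n * (2 * Real.pi)) = (rho (n * (2 * Real.pi)), (3 : ℂ)) := by
      intro n
      unfold spiral
      have hn : |(n : ℝ) * (2 * Real.pi)| = n * (2 * Real.pi) := by
        apply abs_of_nonneg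
        positivity
      rw [hn]
      have : Complex.exp (((n * (2 * Real.pi) : ℝ) : ℂ) * Complex.I) = 1 := by
        push_cast
        rw [mul_assoc]
        exact Complex.exp_nat_mul_two_pi_mul_I n
      rw [this, mul_one]
    simp_rw [h2]
    refine Filter.Tendsto.prodMk_nhds ?_ tendsto_const_nhds
    have h3 : ∀ n : ℕ, rho (n * (2 * Real.pi)) = 1 - 1 / (1 + n * (2 * Real.pi)) := by
      intro n
      unfold rho
      have hn : |(n : ℝ) * (2 * Real.pi)| = n * (2 * Real.pi) := by
        apply abs_of_nonneg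
        positivity
      rw [hn]
      have : (1 : ℝ) + n * (2 * Real.pi) ≠ 0 := by positivity
      field_simp
      ring
    simp_rw [h3]
    have h4 : Filter.Tendsto (fun n : ℕ => (1 : ℝ) + n * (2 * Real.pi)) Filter.atTop Filter.atTop := by
      apply Filter.tendsto_atTop_add_const_left
      exact Filter.Tendsto.atTop_mul_const (by positivity) tendsto_natCast_atTop_atTop
    have h5 : Filter.Tendsto (fun n : ℕ => 1 / ((1 : ℝ) + n * (2 * Real.pi))) Filter.atTop (nhds 0) := by
      simpa [one_div, Function.comp_def] using tendsto_inv_atTop_zero.comp h4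
    simpa using (tendsto_const_nhds (x := (1 : ℝ))).sub h5

/-- two points of the space whose first coordinates have equal modulus are within 2 -/
lemma dist_le_two {v w : ℝ × ℂ} (hv : v ∈ space) (hw : w ∈ space) (h : |v.1| = |w.1|) :
    dist v w ≤ 2 := by
  rcases hv with ⟨s, rfl⟩ | hv
  · rcases hw with ⟨t, rfl⟩ | hw
    · have hst : |s| = |t| := abs_eq_of_abs_rho_eq h
      rw [Prod.dist_eq]
      apply max_le
      · have h1 := abs_rho_lt s
        have h2 := abs_rho_lt t
        change dist (rho s) (rho t) ≤ 2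
        rw [Real.dist_eq]
        have := abs_sub (rho s) (rho t)
        linarith
      · simp [spiral, hst]
    · rw [Set.mem_singleton_iff] at hw
      subst hw
      have := abs_rho_lt s
      change |rho s| = |(1 : ℝ)| at h
      rw [abs_one] at h
      linarith
  · rw [Set.mem_singleton_iff] at hv
    subst hv
    rcases hw with ⟨t, rfl⟩ | hw
    · have := abs_rho_lt t
      change |(1 : ℝ)| = |rho t| at h
      rw [abs_one] at h
      linarith
    · rw [Set.mem_singleton_iff] at hw
      subst hw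
      simp

/-- the surjective semi-span is at most 2 -/
lemma surj_le (Z : Set (space × space)) (hZ : IsConnected Z) (hfst : Prod.fst '' Z = Set.univ) :
    ⨅ p ∈ Z, edist p.1 p.2 ≤ (2 : ENNReal) := by
  by_contra hcon
  push Not at hcon
  have key : ∀ p ∈ Z, |(p.1 : ℝ × ℂ).1| ≠ |(p.2 : ℝ × ℂ).1| := by
    intro p hp habs
    have h1 : (2 : ENNReal) < edist p.1 p.2 := lt_of_lt_of_le hcon (iInf₂_le p hp)
    have h2 : dist (p.1 : ℝ × ℂ) (p.2 : ℝ × ℂ) ≤ 2 := dist_le_two p.1.2 p.2.2 habs
    have h3 : edist p.1 p.2 ≤ 2 := by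
      rw [edist_dist]
      change ENNReal.ofReal (dist (p.1 : ℝ × ℂ) (p.2 : ℝ × ℂ)) ≤ 2
      calc ENNReal.ofReal (dist (p.1 : ℝ × ℂ) (p.2 : ℝ × ℂ)) ≤ ENNReal.ofReal 2 :=
            ENNReal.ofReal_le_ofReal h2
        _ = 2 := by simp
    exact absurd h1 (not_lt.mpr h3)
  have hbound : ∀ q : space, |(q : ℝ × ℂ).1| ≤ 1 := by
    rintro ⟨q, ⟨t, rfl⟩ | hq⟩
    · exact (abs_rho_lt t).le
    · rw [Set.mem_singleton_iff] at hq
      subst hq
      simp
  set A : Set (space × space) := {p | |(p.2 : ℝ × ℂ).1| < (p.1 : ℝ × ℂ).1} with hA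
  set B : Set (space × space) := {p | (p.1 : ℝ × ℂ).1 < |(p.2 : ℝ × ℂ).1|} with hB
  have c1 : Continuous (fun p : space × space => (p.1 : ℝ × ℂ).1) :=
    continuous_fst.comp (continuous_subtype_val.comp continuous_fst)
  have c2 : Continuous (fun p : space × space => |(p.2 : ℝ × ℂ).1|) :=
    continuous_abs.comp (continuous_fst.comp (continuous_subtype_val.comp continuous_snd))
  have hAo : IsOpen A := isOpen_lt c2 c1
  have hBo : IsOpen B := isOpen_lt c1 c2
  have hcover : Z ⊆ A ∪ B := by
    intro p hp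
    rcases lt_trichotomy |(p.2 : ℝ × ℂ).1| (p.1 : ℝ × ℂ).1 with h | h | h
    · exact Or.inl h
    · exfalso
      apply key p hp
      rw [← h, abs_abs]
    · exact Or.inr h
  -- the point of Z over the cluster point lies in A
  have hZA : (Z ∩ A).Nonempty := by
    have : (⟨((1 : ℝ), (3 : ℂ)), top_mem⟩ : space) ∈ Prod.fst '' Z := by rw [hfst]; trivial
    obtain ⟨p, hp, hp1⟩ := this
    refine ⟨p, hp, ?_⟩
    have e1 : (p.1 : ℝ × ℂ).1 = 1 := by rw [hp1]
    have h2 := hbound p.2
    have h3 := key p hp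
    rw [e1, abs_one] at h3
    change |(p.2 : ℝ × ℂ).1| < (p.1 : ℝ × ℂ).1
    rw [e1]
    exact lt_of_le_of_ne h2 (Ne.symm h3)
  have hZB : (Z ∩ B).Nonempty := by
    have : (⟨spiral 0, zero_mem⟩ : space) ∈ Prod.fst '' Z := by rw [hfst]; trivial
    obtain ⟨p, hp, hp1⟩ := this
    refine ⟨p, hp, ?_⟩
    have e1 : (p.1 : ℝ × ℂ).1 = 0 := by rw [hp1]; simp [spiral, rho]
    have h3 := key p hp
    change (p.1 : ℝ × ℂ).1 < |(p.2 : ℝ × ℂ).1|
    rw [e1] at h3 ⊢
    rw [abs_zero] at h3
    exact lt_of_le_of_ne (abs_nonneg _) h3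
  obtain ⟨p, hp, hpA, hpB⟩ := hZ.2 A B hAo hBo hcover hZA hZB
  have hA' : |(p.2 : ℝ × ℂ).1| < (p.1 : ℝ × ℂ).1 := hpA
  have hB' : (p.1 : ℝ × ℂ).1 < |(p.2 : ℝ × ℂ).1| := hpB
  exact absurd (lt_trans hA' hB') (lt_irrefl _)

/-- the semi-span is at least 6 -/
lemma semi_ge : (6 : ENNReal) ≤ ⨆ (Z : Set (space × space)) (_ : IsConnected Z)
    (_ : Prod.snd '' Z ⊆ Prod.fst '' Z), ⨅ p ∈ Z, edist p.1 p.2 := by
  let f : ℝ → space × space := fun t =>
    (⟨spiral (-t), Or.inl ⟨_, rfl⟩⟩, ⟨spiral (-(t + Real.pi)), Or.inl ⟨_, rfl⟩⟩)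
  have hf : Continuous f := by
    refine Continuous.prodMk ?_ ?_
    · exact (continuous_spiral.comp continuous_neg).subtype_mk _
    · exact (continuous_spiral.comp (continuous_neg.comp (continuous_id.add continuous_const))).subtype_mk _
  have hconn : IsConnected (f '' Set.Ici 0) := isConnected_Ici.image f hf.continuousOn
  have hproj : Prod.snd '' (f '' Set.Ici 0) ⊆ Prod.fst '' (f '' Set.Ici 0) := by
    rintro _ ⟨_, ⟨t, ht, rfl⟩, rfl⟩
    refine ⟨f (t + Real.pi), ⟨t + Real.pi, ?_, rfl⟩, rfl⟩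
    have h0 : (0 : ℝ) ≤ t := ht
    have := Real.pi_pos
    change (0 : ℝ) ≤ t + Real.pi
    linarith
  refine le_trans ?_ (le_iSup₂_of_le (f '' Set.Ici 0) hconn (le_iSup_of_le hproj le_rfl))
  refine le_iInf₂ ?_
  rintro _ ⟨t, ht, rfl⟩
  have h0 : (0 : ℝ) ≤ t := ht
  have hd : (6 : ℝ) ≤ dist (spiral (-t)) (spiral (-(t + Real.pi))) := by
    rw [Prod.dist_eq]
    apply le_max_of_le_right
    have e1 : |(-t)| = t := by rw [abs_neg, abs_of_nonneg h0]
    have e2 : |(-(t + Real.pi))| = t + Real.pi := by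
      rw [abs_neg, abs_of_nonneg]
      have := Real.pi_pos
      linarith
    simp only [spiral, e1, e2]
    have e3 : Complex.exp (((t + Real.pi : ℝ) : ℂ) * Complex.I) = - Complex.exp ((t : ℂ) * Complex.I) := by
      push_cast
      rw [add_mul, Complex.exp_add, Complex.exp_pi_mul_I]
      ring
    rw [e3, Complex.dist_eq]
    have e4 : (3 : ℂ) * Complex.exp ((t : ℂ) * Complex.I) - 3 * -Complex.exp ((t : ℂ) * Complex.I)
        = 6 * Complex.exp ((t : ℂ) * Complex.I) := by ring
    rw [e4, norm_mul, Complex.norm_exp_ofReal_mul_I]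
    simp
  change (6 : ENNReal) ≤ edist (f t).1 (f t).2
  rw [edist_dist]
  change (6 : ENNReal) ≤ ENNReal.ofReal (dist (spiral (-t)) (spiral (-(t + Real.pi))))
  calc (6 : ENNReal) = ENNReal.ofReal 6 := by simp
    _ ≤ _ := ENNReal.ofReal_le_ofReal hd

/-- The negation of the preceding statement: For every connected metric space X, the semi-span of X (sup over connected Z ⊆ X×X with second projection inside first of inf distance) is at most twice its surjective semi-span (same, first projection all of X). -/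
theorem result :
    ¬ (∀ (X : Type) [MetricSpace X] [ConnectedSpace X],
      (⨆ (Z : Set (X × X)) (_ : IsConnected Z) (_ : Prod.snd '' Z ⊆ Prod.fst '' Z),
          ⨅ p ∈ Z, edist p.1 p.2)
        ≤ (2 : ENNReal) *
          (⨆ (Z : Set (X × X)) (_ : IsConnected Z) (_ : Prod.fst '' Z = Set.univ),
            ⨅ p ∈ Z, edist p.1 p.2)) := by
  intro H
  have : ConnectedSpace space := isConnected_iff_connectedSpace.mp isConnected_space
  have h1 := H space
  have h2 : (⨆ (Z : Set (space × space)) (_ : IsConnected Z) (_ : Prod.fst '' Z = Set.univ),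
            ⨅ p ∈ Z, edist p.1 p.2) ≤ (2 : ENNReal) :=
    iSup_le fun Z => iSup_le fun hZ => iSup_le fun hfst => surj_le Z hZ hfst
  have h3 : (6 : ENNReal) ≤ 2 * 2 := by
    refine le_trans semi_ge (le_trans h1 ?_)
    gcongr
  have h4 : (6 : ENNReal) ≤ 4 := by
    refine h3.trans (le_of_eq ?_)
    norm_num
  have h5 : ¬ ((6 : ENNReal) ≤ 4) := by norm_num
  exact h5 h4

end Pool.Agent.S12936
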