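import Pool.Statements.S13253
import Pool.Agent.Helper92.CorsonCp

set_option autoImplicit false
open Pool Pool.MP_5e5cb0_gt

namespace Pool.Agent.S13253

/-- Let X be Tychonoff and suppose every pointwise-compact set of continuous real functions on X embeds in a Sigma-product. Then for every compact Hausdorff K, every pointwise-compact set of continuous real functions on X×K also embeds in a Sigma-product. -/
theorem result :
    ∀ (X : Type) [TopologicalSpace X] [T35Space X],
      (∀ S : Set (X → ℝ), (∀ f ∈ S, Continuous f) → IsCompact S →
        ∃ (Γ : Type) (e : S → (Γ → ℝ)), Topology.IsEmbedding e ∧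
          ∀ s, (Function.support (e s)).Countable) →
      ∀ (K : Type) [TopologicalSpace K] [CompactSpace K] [T2Space K],
        ∀ S : Set (X × K → ℝ), (∀ f ∈ S, Continuous f) → IsCompact S →
          ∃ (Γ : Type) (e : S → (Γ → ℝ)), Topology.IsEmbedding e ∧
            ∀ s, (Function.support (e s)).Countable := by
  intro X _ _ hX K _ _ _ S hS hSK
  exact Pool.Agent.Helper92.Corson.main hX K S hS hSK

end Pool.Agent.S13253
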