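import Pool.Statements.S13456
import Pool.Agent.Helper88.Counter

set_option autoImplicit false
open Pool Pool.MP_7ef336_gt

namespace Pool.Agent.S13456

/-- The negation of the preceding statement: For every n and every A ⊆ ℝⁿ there is B containing A with covering dimension of B equal to that of A (say m) and covering dimension of the complement of B equal to n − m − 1 (empty set has dimension −1). -/
theorem result :
    ¬ (∀ n : ℕ, ∀ D : Set (EuclideanSpace ℝ (Fin n)) → ℤ → Prop,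
      (∀ (S : Set (EuclideanSpace ℝ (Fin n))) (k : ℤ), D S k ↔
        ∀ 𝒰 : Finset (Set (EuclideanSpace ℝ (Fin n))),
          (∀ U ∈ 𝒰, IsOpen U) →
          S ⊆ ⋃₀ (↑𝒰 : Set (Set (EuclideanSpace ℝ (Fin n)))) →
          ∃ 𝒱 : Finset (Set (EuclideanSpace ℝ (Fin n))),
            (∀ V ∈ 𝒱, IsOpen V) ∧
            S ⊆ ⋃₀ (↑𝒱 : Set (Set (EuclideanSpace ℝ (Fin n)))) ∧
            (∀ V ∈ 𝒱, ∃ U ∈ 𝒰, V ∩ S ⊆ U) ∧
            (∀ 𝒲 ⊆ 𝒱, (𝒲.card : ℤ) = k + 2 →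
              S ∩ ⋂₀ (↑𝒲 : Set (Set (EuclideanSpace ℝ (Fin n)))) = ∅)) →
      ∀ A : Set (EuclideanSpace ℝ (Fin n)),
        ∃ B : Set (EuclideanSpace ℝ (Fin n)), A ⊆ B ∧
          ∀ m : ℤ,
            (-1 ≤ m ∧ D A m ∧ ∀ j : ℤ, -1 ≤ j → j < m → ¬ D A j) →
            ((D B m ∧ ∀ j : ℤ, -1 ≤ j → j < m → ¬ D B j) ∧
             (D Bᶜ ((n : ℤ) - m - 1) ∧
               ∀ j : ℤ, -1 ≤ j → j < (n : ℤ) - m - 1 → ¬ D Bᶜ j))) := by
  intro h
  obtain ⟨B, hAB, hB⟩ := h 3 (fun S k => Helper88.DimLE S k) (fun S k => Iff.rfl) Helper88.AA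
  have h1 := hB 1 ⟨by norm_num, Helper88.AA_dimLE_one, by
    intro j hj1 hj2
    have hj : j = -1 ∨ j = 0 := by omega
    rcases hj with rfl | rfl
    · exact Helper88.AA_not_dimLE_neg_one
    · exact Helper88.AA_not_dimLE_zero⟩
  have h2 : Helper88.DimLE Bᶜ 1 := by
    have h3 := h1.2.1
    norm_num at h3
    exact h3
  exact Helper88.key B hAB h1.1.1 h2

end Pool.Agent.S13456
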