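import Pool.Statements.S13770
import Pool.Agent.YG.Final

set_option autoImplicit false
open Pool Pool.MP_b0ef7e_gt

namespace Pool.Agent.S13770

/-- The negation of the preceding statement: For n ≥ 2, any discrete torsion-free group of holomorphic automorphisms of the complex n-ball acting cocompactly on a nonempty invariant convex set is either cocompact on the whole ball or has Bergman-metric critical exponent at most 2n−1. -/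
theorem result :
    ¬ (∀ n : ℕ, 2 ≤ n →
  ∀ c d : EuclideanSpace ℂ (Fin n) → EuclideanSpace ℂ (Fin n) → ℝ,
    (∀ z w, c z w = ‖(1 : ℂ) - inner ℂ z w‖ / Real.sqrt ((1 - ‖z‖ ^ 2) * (1 - ‖w‖ ^ 2))) →
    (∀ z w, d z w = Real.log (c z w + Real.sqrt (c z w ^ 2 - 1))) →
  ∀ Γ : Subgroup (Equiv.Perm (EuclideanSpace ℂ (Fin n))),
    (∀ γ ∈ Γ, Set.MapsTo (⇑γ) (Metric.ball (0 : EuclideanSpace ℂ (Fin n)) 1)
        (Metric.ball (0 : EuclideanSpace ℂ (Fin n)) 1) ∧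
      DifferentiableOn ℂ (⇑γ) (Metric.ball (0 : EuclideanSpace ℂ (Fin n)) 1)) →
    (∀ γ ∈ Γ, (∀ z ∈ Metric.ball (0 : EuclideanSpace ℂ (Fin n)) 1, γ z = z) → γ = 1) →
    (∀ γ ∈ Γ, ∀ k : ℕ, 0 < k → γ ^ k = 1 → γ = 1) →
    (∀ R : ℝ, {γ : Equiv.Perm (EuclideanSpace ℂ (Fin n)) | γ ∈ Γ ∧ d 0 (γ 0) ≤ R}.Finite) →
    (∃ C : Set (EuclideanSpace ℂ (Fin n)), C.Nonempty ∧
      C ⊆ Metric.ball (0 : EuclideanSpace ℂ (Fin n)) 1 ∧
      (∀ γ ∈ Γ, ∀ z ∈ C, γ z ∈ C) ∧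
      (∀ x ∈ C, ∀ y ∈ C, ∀ z ∈ Metric.ball (0 : EuclideanSpace ℂ (Fin n)) 1,
        d x z + d z y = d x y → z ∈ C) ∧
      ∃ K : Set (EuclideanSpace ℂ (Fin n)), IsCompact K ∧
        K ⊆ Metric.ball (0 : EuclideanSpace ℂ (Fin n)) 1 ∧
        C ⊆ ⋃ γ ∈ Γ, (⇑γ) '' K) →
    (∃ K : Set (EuclideanSpace ℂ (Fin n)), IsCompact K ∧
        K ⊆ Metric.ball (0 : EuclideanSpace ℂ (Fin n)) 1 ∧
        Metric.ball (0 : EuclideanSpace ℂ (Fin n)) 1 ⊆ ⋃ γ ∈ Γ, (⇑γ) '' K) ∨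
    ∀ s : ℝ, 2 * (n : ℝ) - 1 < s →
      Summable (fun γ : Γ =>
        Real.exp (-(s * d 0 ((γ : Equiv.Perm (EuclideanSpace ℂ (Fin n))) 0))))) := by
  obtain ⟨Γ, h⟩ := Pool.Agent.YG.exists_hyp
  exact Pool.Agent.YG.general Pool.Agent.YG.Lam Γ h

end Pool.Agent.S13770
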