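import Pool.Statements.S13800
import Pool.Agent.MNG.AYT
import Pool.Agent.MNG.GEN

set_option autoImplicit false
open Pool Pool.MP_b5674c_gt

namespace Pool.Agent.S13800

/-- The negation of the preceding statement: For positive m, n and any nontrivial compact metrizable totally disconnected group G acting continuously and freely on the Menger compacta of dimensions m+n and n, there is no continuous G-equivariant map from the first to the second. -/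
theorem result :
    ¬ (∀ (m n : ℕ), 0 < m → 0 < n →
    ∀ (G : Type) [Group G] [TopologicalSpace G] [IsTopologicalGroup G] [CompactSpace G]
      [TopologicalSpace.MetrizableSpace G] [TotallyDisconnectedSpace G] [Nontrivial G]
      [A : MulAction G ↥{x : Fin (2 * (m + n) + 1) → ℝ | (∀ i, x i ∈ Set.Icc (0:ℝ) 1) ∧
          ∀ j : ℕ, {i | 1/3 < Int.fract ((3:ℝ) ^ j * x i) ∧
            Int.fract ((3:ℝ) ^ j * x i) < 2/3}.ncard ≤ m + n}]
      [B : MulAction G ↥{x : Fin (2 * n + 1) → ℝ | (∀ i, x i ∈ Set.Icc (0:ℝ) 1) ∧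
          ∀ j : ℕ, {i | 1/3 < Int.fract ((3:ℝ) ^ j * x i) ∧
            Int.fract ((3:ℝ) ^ j * x i) < 2/3}.ncard ≤ n}],
      ContinuousSMul G ↥{x : Fin (2 * (m + n) + 1) → ℝ | (∀ i, x i ∈ Set.Icc (0:ℝ) 1) ∧
          ∀ j : ℕ, {i | 1/3 < Int.fract ((3:ℝ) ^ j * x i) ∧
            Int.fract ((3:ℝ) ^ j * x i) < 2/3}.ncard ≤ m + n} →
      ContinuousSMul G ↥{x : Fin (2 * n + 1) → ℝ | (∀ i, x i ∈ Set.Icc (0:ℝ) 1) ∧
          ∀ j : ℕ, {i | 1/3 < Int.fract ((3:ℝ) ^ j * x i) ∧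
            Int.fract ((3:ℝ) ^ j * x i) < 2/3}.ncard ≤ n} →
      (∀ (g : G) (x : ↥{x : Fin (2 * (m + n) + 1) → ℝ | (∀ i, x i ∈ Set.Icc (0:ℝ) 1) ∧
          ∀ j : ℕ, {i | 1/3 < Int.fract ((3:ℝ) ^ j * x i) ∧
            Int.fract ((3:ℝ) ^ j * x i) < 2/3}.ncard ≤ m + n}), g • x = x → g = 1) →
      (∀ (g : G) (y : ↥{x : Fin (2 * n + 1) → ℝ | (∀ i, x i ∈ Set.Icc (0:ℝ) 1) ∧
          ∀ j : ℕ, {i | 1/3 < Int.fract ((3:ℝ) ^ j * x i) ∧
            Int.fract ((3:ℝ) ^ j * x i) < 2/3}.ncard ≤ n}), g • y = y → g = 1) →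
      ¬ ∃ f : ↥{x : Fin (2 * (m + n) + 1) → ℝ | (∀ i, x i ∈ Set.Icc (0:ℝ) 1) ∧
          ∀ j : ℕ, {i | 1/3 < Int.fract ((3:ℝ) ^ j * x i) ∧
            Int.fract ((3:ℝ) ^ j * x i) < 2/3}.ncard ≤ m + n} →
          ↥{x : Fin (2 * n + 1) → ℝ | (∀ i, x i ∈ Set.Icc (0:ℝ) 1) ∧
          ∀ j : ℕ, {i | 1/3 < Int.fract ((3:ℝ) ^ j * x i) ∧
            Int.fract ((3:ℝ) ^ j * x i) < 2/3}.ncard ≤ n},
        Continuous f ∧ ∀ (g : G) x, f (g • x) = g • f x) := by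
  exact MNG.agt_neg (fun T => MNG.gen (by norm_num) T) (fun T => MNG.gen (by norm_num) T)
    (MNG.y_sp 2)

end Pool.Agent.S13800
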