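-- Proof of frozen statement S14230 (the negation): a class K of T0 spaces containing all sober spaces
-- and a countable family of K-determined spaces whose product is not K-determined.
import Pool.Statements.S14230
import Pool.Agent.Helper93.KDet

set_option autoImplicit false
open Pool Pool.MP_f54e59_gt

namespace Pool.Agent.S14230

/-- The negation of the preceding statement: For every class K of T0 spaces containing all sober spaces, any product of T0 spaces whose irreducible closed sets are K-determined (images have closure of a unique point in every K-space) again has all irreducible closed sets K-determined. -/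
theorem result :
    ¬ (∀ K : (∀ (Y : Type) [TopologicalSpace Y], Prop),
      (∀ (Y : Type) [TopologicalSpace Y], K Y → T0Space Y) →
      (∀ (Y : Type) [TopologicalSpace Y], T0Space Y → QuasiSober Y → K Y) →
      ∀ (I : Type) (X : I → Type) [∀ i, TopologicalSpace (X i)],
        (∀ i, T0Space (X i) ∧ ∀ A : Set (X i), IsIrreducible A → IsClosed A →
          ∀ (Y : Type) [TopologicalSpace Y], K Y → ∀ f : X i → Y, Continuous f →
            ∃! y : Y, closure (f '' A) = closure {y}) →
        ∀ A : Set (∀ i, X i), IsIrreducible A → IsClosed A →
          ∀ (Y : Type) [TopologicalSpace Y], K Y → ∀ f : (∀ i, X i) → Y, Continuous f →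
            ∃! y : Y, closure (f '' A) = closure {y}) := by
  intro h
  have h1 := h Pool.Agent.Helper93.KDet.K (fun Y _ hY => hY.1)
    (fun Y _ h0 hs => Pool.Agent.Helper93.KDet.K_of_sober Y h0 hs)
    ℕ Pool.Agent.Helper93.KDet.S
    (fun n => ⟨inferInstance, fun A hA hAc Y _ hY f hf => hY.2 n A hA hAc f hf⟩)
    Set.univ Pool.Agent.Helper93.KDet.irreducible_pi isClosed_univ
    Pool.Agent.Helper93.KDet.Y Pool.Agent.Helper93.KDet.Y_mem_K
    Pool.Agent.Helper93.KDet.emb Pool.Agent.Helper93.KDet.continuous_emb
  obtain ⟨y, hy, -⟩ := h1
  exact Pool.Agent.Helper93.KDet.not_generic y hy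

end Pool.Agent.S14230
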