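-- Proof of the frozen statement S15186 (negation).
-- The proof does not exploit the clause that outputs are always feasible: it goes through
-- Pool.Agent.Helper82.JDP.main, a lower bound s > log m / (50 eps alpha) on the supply of any jointly
-- private mechanism whose output is feasible and near optimal only with probability at least 1 - beta
-- (the reading under which the known polylogarithmic upper bound holds).
import Pool.Statements.S15186
import Pool.Agent.Helper82.JDPFrozen

set_option autoImplicit false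
open Pool Pool.MP_a8f5d0_lc

namespace Pool.Agent.S15186

/-- The negation of the preceding statement: For each ε,α,β in (0,1) there is a supply s such that for all n, m and supplies ≥ s, some ε-jointly private mechanism on [0,1]-valued gross-substitute profiles always outputs feasible allocations with welfare ≥ OPT − αn with probability ≥ 1−β. -/
theorem result :
    ¬ (∀ ε α β : ℝ, 0 < ε → ε < 1 → 0 < α → α < 1 → 0 < β → β < 1 →
  ∃ s : ℕ, ∀ n m : ℕ, ∀ supply : Fin m → ℕ, (∀ j, s ≤ supply j) →
  ∃ M : (Fin n → Finset (Fin m) → ℝ) → PMF (Fin n → Finset (Fin m)),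
    (∀ v : Fin n → Finset (Fin m) → ℝ,
      (∀ i, (∀ S, 0 ≤ v i S ∧ v i S ≤ 1) ∧
        ∀ p q : Fin m → ℝ, p ≤ q → ∀ S : Finset (Fin m),
          (∀ T : Finset (Fin m), v i T - ∑ j ∈ T, p j ≤ v i S - ∑ j ∈ S, p j) →
          ∃ T : Finset (Fin m),
            (∀ U : Finset (Fin m), v i U - ∑ j ∈ U, q j ≤ v i T - ∑ j ∈ T, q j) ∧
            ∀ j ∈ S, q j = p j → j ∈ T) →
      (∀ ω ∈ (M v).support, ∀ j : Fin m,
          (Finset.univ.filter (fun k : Fin n => j ∈ ω k)).card ≤ supply j) ∧
      (M v).toOuterMeasure {ω | ∀ ω' : Fin n → Finset (Fin m),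
          (∀ j : Fin m, (Finset.univ.filter (fun k : Fin n => j ∈ ω' k)).card ≤ supply j) →
          ∑ k, v k (ω' k) - α * (n : ℝ) ≤ ∑ k, v k (ω k)} ≥ ENNReal.ofReal (1 - β)) ∧
    (∀ v : Fin n → Finset (Fin m) → ℝ,
      (∀ i, (∀ S, 0 ≤ v i S ∧ v i S ≤ 1) ∧
        ∀ p q : Fin m → ℝ, p ≤ q → ∀ S : Finset (Fin m),
          (∀ T : Finset (Fin m), v i T - ∑ j ∈ T, p j ≤ v i S - ∑ j ∈ S, p j) →
          ∃ T : Finset (Fin m),
            (∀ U : Finset (Fin m), v i U - ∑ j ∈ U, q j ≤ v i T - ∑ j ∈ T, q j) ∧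
            ∀ j ∈ S, q j = p j → j ∈ T) →
      ∀ (i : Fin n) (w : Finset (Fin m) → ℝ),
      ((∀ S, 0 ≤ w S ∧ w S ≤ 1) ∧
        ∀ p q : Fin m → ℝ, p ≤ q → ∀ S : Finset (Fin m),
          (∀ T : Finset (Fin m), w T - ∑ j ∈ T, p j ≤ w S - ∑ j ∈ S, p j) →
          ∃ T : Finset (Fin m),
            (∀ U : Finset (Fin m), w U - ∑ j ∈ U, q j ≤ w T - ∑ j ∈ T, q j) ∧
            ∀ j ∈ S, q j = p j → j ∈ T) →
      ∀ S : Set ({k : Fin n // k ≠ i} → Finset (Fin m)),
        (M v).toOuterMeasure {ω | (fun k : {k : Fin n // k ≠ i} => ω k.1) ∈ S} ≤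
          ENNReal.ofReal (Real.exp ε) *
            (M (Function.update v i w)).toOuterMeasure
              {ω | (fun k : {k : Fin n // k ≠ i} => ω k.1) ∈ S})) := by
  intro hall
  -- constants
  obtain ⟨s, hs⟩ := hall (1 / 8) (1 / 256) (1 / 2) (by norm_num) (by norm_num) (by norm_num)
    (by norm_num) (by norm_num) (by norm_num)
  -- a large number of items
  obtain ⟨m0, hm0⟩ := exists_nat_ge (Real.exp ((s : ℝ)))
  set m : ℕ := max m0 256 with hm
  have hm256 : 256 ≤ m := le_max_right _ _
  have hm256' : (256 : ℝ) ≤ m := by exact_mod_cast hm256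
  have hlog : (s : ℝ) ≤ Real.log m := by
    rw [Real.le_log_iff_exp_le (by linarith)]
    refine le_trans hm0 ?_
    exact_mod_cast le_max_left _ _
  -- the robust lower bound (feasibility needed only with probability 1 - β)
  obtain ⟨n, _, hn⟩ := Pool.Agent.Helper82.JDP.main (ε := 1 / 8) (α := 1 / 256) (β := 1 / 2)
    (δ := 0) (by norm_num) (by norm_num) (by norm_num) (by norm_num) (by norm_num) le_rfl m
    (by omega) (by norm_num; linarith) (by norm_num)
  have hlt := hn s (by
    intro supply hsup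
    obtain ⟨M, hM1, hM2⟩ := hs n m supply hsup
    refine ⟨M, ?_, ?_⟩
    · intro v hv
      have h := hM1 v (fun i => Pool.Agent.Helper82.JDP.simple_gs (hv i))
      refine le_trans h.2 ?_
      apply PMF.toOuterMeasure_mono
      rintro ω ⟨h1, h2⟩
      exact ⟨h.1 ω h2, h1⟩
    · intro v hv i w hw S
      have h := hM2 v (fun i => Pool.Agent.Helper82.JDP.simple_gs (hv i)) i w
        (Pool.Agent.Helper82.JDP.simple_gs hw) S
      exact le_trans h le_self_add)
  have h1 : Real.log m / (50 * (1 / 8) * (1 / 256)) = Real.log m * (1024 / 25) := by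
    norm_num
    ring
  rw [h1] at hlt
  have h2 : 0 ≤ Real.log m := Real.log_nonneg (by linarith)
  linarith

end Pool.Agent.S15186
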