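import Pool.Statements.S17427
-- import your own Pool.Agent.* helpers here
import Pool.Agent.Helper53.MF.Main

set_option autoImplicit false
open Pool Pool.MP_743d72_nt

namespace Pool.Agent.S17427

/-- For every n ≥ 3 and real τ > 1, consider the reals ξ for which infinitely many integer polynomials P of degree ≤ n satisfy (∏_{i=1..n} max(1,∣a_i∣))^(2τ−1)·∣P(ξ)∣ < 1. This set has Hausdorff dimension exactly 1/τ. -/
theorem result :
    ∀ n : ℕ, 3 ≤ n → ∀ τ : ℝ, 1 < τ →
      dimH {ξ : ℝ | {P : Polynomial ℤ | P.natDegree ≤ n ∧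
          ((∏ i ∈ Finset.Icc 1 n, max (1 : ℤ) |P.coeff i| : ℤ) : ℝ) ^ (2 * τ - 1)
            * |(Polynomial.aeval ξ P : ℝ)| < 1}.Infinite}
        = ENNReal.ofReal (1 / τ) := by
  intro n hn τ hτ
  exact Pool.Agent.Helper53.MF.dimH_K n (by omega) τ hτ

end Pool.Agent.S17427
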