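import Pool.Statements.S18925
import Pool.Agent.Helper25.SNumFinal

set_option autoImplicit false
open Pool Pool.MP_f13ad7_nt

namespace Pool.Agent.S18925

/-- For every transcendental real ξ whose Mahler type limsup w_n(ξ)/n equals 1, Koksma's *-type limsup w_n*(ξ)/n also equals 1, with w_n from integer polynomials and w_n* from real algebraic numbers of degree at most n. -/
theorem result :
    ∀ ξ : ℝ, Transcendental ℤ ξ →
      (∀ ε : ℝ, 0 < ε → ∃ N : ℕ, ∀ n : ℕ, N ≤ n →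
        {P : Polynomial ℤ | P.natDegree ≤ n ∧ Polynomial.aeval ξ P ≠ 0 ∧
          |Polynomial.aeval ξ P| ≤
            ((P.support.sup (fun i => (P.coeff i).natAbs) : ℕ) : ℝ) ^ (-((1 + ε) * (n : ℝ)))}.Finite) →
      (∀ ε : ℝ, 0 < ε → ∃ N : ℕ, ∀ n : ℕ, N ≤ n →
        {α : ℝ | ∃ Q : Polynomial ℤ, Irreducible Q ∧ Q.natDegree ≤ n ∧
          Polynomial.aeval α Q = 0 ∧ α ≠ ξ ∧
          |ξ - α| ≤
            ((Q.support.sup (fun i => (Q.coeff i).natAbs) : ℕ) : ℝ) ^ (-((1 + ε) * (n : ℝ) + 1))}.Finite) ∧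
      (∀ ε : ℝ, 0 < ε → ∀ N : ℕ, ∃ n : ℕ, N ≤ n ∧
        {α : ℝ | ∃ Q : Polynomial ℤ, Irreducible Q ∧ Q.natDegree ≤ n ∧
          Polynomial.aeval α Q = 0 ∧ α ≠ ξ ∧
          |ξ - α| ≤
            ((Q.support.sup (fun i => (Q.coeff i).natAbs) : ℕ) : ℝ) ^ (-((1 - ε) * (n : ℝ) + 1))}.Infinite) := by
  intro ξ hξ hyp
  exact Pool.Agent.Helper25.SNum.final ξ hξ hyp

end Pool.Agent.S18925
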