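-- Proof of frozen statement S19177: for d = 4, 5, almost surely, for every s > 0 the set of pairs of
-- distinct times at which the slice of the Brownian sheet along s has a double point has Hausdorff
-- dimension zero.
import Pool.Statements.S19177
import Pool.Agent.Helper93.Sheet.Final

set_option autoImplicit false
open MeasureTheory ProbabilityTheory
open Pool Pool.MP_16f2e2_pr

namespace Pool.Agent.S19177

/-- For d = 4 and d = 5, any continuous d-dimensional Brownian sheet satisfies, almost surely, for every s > 0, that the set of distinct positive time pairs where the slice at s has a double point has Hausdorff dimension 0. -/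
theorem result :
  ∀ (d : ℕ), (d = 4 ∨ d = 5) →
  ∀ (Ω : Type) [MeasurableSpace Ω] (P : Measure Ω) [IsProbabilityMeasure P]
    (B : Ω → ℝ → ℝ → (Fin d → ℝ)),
    (∀ ω, ContinuousOn (fun p : ℝ × ℝ => B ω p.1 p.2)
        ((Set.Ici (0 : ℝ)) ×ˢ (Set.Ici (0 : ℝ)))) →
    (∀ (n : ℕ) (x : Fin n → ℝ × ℝ) (c : Fin n → Fin d → ℝ),
      (∀ k, 0 ≤ (x k).1 ∧ 0 ≤ (x k).2) →
      P.map (fun ω => ∑ k, ∑ i, c k i * B ω (x k).1 (x k).2 i) =
        gaussianReal 0 (Real.toNNReal
          (∑ k, ∑ l, ∑ i, c k i * c l i *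
            (min (x k).1 (x l).1 * min (x k).2 (x l).2)))) →
    ∀ᵐ ω ∂P, ∀ s : ℝ, 0 < s →
      dimH {p : ℝ × ℝ | 0 < p.1 ∧ 0 < p.2 ∧ p.1 ≠ p.2 ∧ B ω s p.1 = B ω s p.2} = 0 := by
  intro d hd Ω _ P _ B hcont hB
  rcases hd with rfl | rfl
  · exact Pool.Agent.Helper93.Sheet.sheet4 P B hcont hB
  · -- project onto the first four coordinates
    let B' : Ω → ℝ → ℝ → (Fin 4 → ℝ) := fun ω s t i => B ω s t i.castSucc
    have hcont' : ∀ ω, ContinuousOn (fun p : ℝ × ℝ => B' ω p.1 p.2)
        ((Set.Ici (0 : ℝ)) ×ˢ (Set.Ici (0 : ℝ))) := by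
      intro ω
      rw [continuousOn_pi]
      intro i
      exact (continuousOn_pi.mp (hcont ω)) i.castSucc
    have hB' : Pool.Agent.Helper93.Sheet.IsSheet P B' := by
      intro n x c hx
      have h1 := hB n x (fun k => Fin.snoc (α := fun _ => ℝ) (c k) (0 : ℝ)) hx
      have h2 : (fun ω => ∑ k, ∑ i : Fin 5, (Fin.snoc (α := fun _ => ℝ) (c k) (0 : ℝ)) i *
          B ω (x k).1 (x k).2 i) = fun ω => ∑ k, ∑ i : Fin 4, c k i * B' ω (x k).1 (x k).2 i := by
        ext ω
        apply Finset.sum_congr rfl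
        intro k _
        rw [Fin.sum_univ_castSucc]
        simp only [Fin.snoc_castSucc, Fin.snoc_last, zero_mul, add_zero, B']
      have h3 : ∀ k l : Fin n, ∑ i : Fin 5, (Fin.snoc (α := fun _ => ℝ) (c k) (0 : ℝ)) i *
          (Fin.snoc (α := fun _ => ℝ) (c l) (0 : ℝ)) i *
            (min (x k).1 (x l).1 * min (x k).2 (x l).2) =
          ∑ i : Fin 4, c k i * c l i * (min (x k).1 (x l).1 * min (x k).2 (x l).2) := by
        intro k l
        rw [Fin.sum_univ_castSucc]
        simp only [Fin.snoc_castSucc, Fin.snoc_last, zero_mul, add_zero]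
      rw [h2] at h1
      rw [h1]
      simp only [h3]
    have h4 := Pool.Agent.Helper93.Sheet.sheet4 P B' hcont' hB'
    filter_upwards [h4] with ω hω s hs
    have h5 := hω s hs
    apply le_antisymm _ (zero_le)
    rw [← h5]
    apply dimH_mono
    rintro p ⟨hp1, hp2, hp3, hp4⟩
    refine ⟨hp1, hp2, hp3, ?_⟩
    ext i
    exact congrFun hp4 i.castSucc

end Pool.Agent.S19177
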