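import Pool.Statements.S19313
import Pool.Agent.PB.FinalMain

set_option autoImplicit false
open MeasureTheory Filter Topology
open Pool Pool.MP_5300c3_pr

namespace Pool.Agent.S19313

/-- For bond percolation on Z^d in all large enough dimensions d, with θ(p) the probability that the origin's open cluster is infinite and p_c its critical point, θ(p_c+ε)/ε converges to a positive constant as ε decreases to 0. -/
theorem result :
    ∃ d₀ : ℕ, ∀ d : ℕ, d₀ ≤ d →
      ∀ θ : ℝ → ℝ,
        (∀ p : ℝ, θ p =
          ((Measure.infinitePi
              (fun _ : (Fin d → ℤ) × Fin d => (volume : Measure unitInterval)))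
            {ω : (Fin d → ℤ) × Fin d → unitInterval |
              Set.Infinite {x : Fin d → ℤ |
                (SimpleGraph.fromRel (fun a b : Fin d → ℤ =>
                  ∃ i : Fin d, b = a + (Pi.single i (1 : ℤ) : Fin d → ℤ) ∧
                    ((ω (a, i) : ℝ) ≤ p))).Reachable 0 x}}).toReal) →
        ∃ C : ℝ, 0 < C ∧
          Tendsto (fun ε : ℝ => θ (sSup {p : ℝ | θ p = 0} + ε) / ε)
            (𝓝[>] 0) (𝓝 C) :=
  Pool.Agent.PB.frozen_of Pool.Agent.PB.theta_limit

end Pool.Agent.S19313
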