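import Pool.Statements.S19529
import Pool.Agent.Helper95.PolyFin

set_option autoImplicit false
open Filter
open Pool Pool.MP_a146e8_pr

namespace Pool.Agent.S19529

/-- For every d≥2 and n-step simple random walk on Z^d with self-intersection count I_n, the sup of β with limsup E[exp(-βI_n/n)]^(1/n)>1 equals the inf of β with E[exp(-β(I_n-EI_n)/n)] bounded in n. -/
theorem result :
  ∀ d : ℕ, 2 ≤ d →
  ∀ I : (n : ℕ) → (Fin n → Fin d × Bool) → ℝ,
  (∀ (n : ℕ) (s : Fin n → Fin d × Bool),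
      I n s = ((Finset.univ.filter (fun p : Fin (n+1) × Fin (n+1) =>
        p.1 < p.2 ∧
        (fun k : Fin d => ∑ j : Fin n,
            (if j.val < p.1.val ∧ (s j).1 = k then (if (s j).2 then (1:ℤ) else -1) else 0)) =
        (fun k : Fin d => ∑ j : Fin n,
            (if j.val < p.2.val ∧ (s j).1 = k then (if (s j).2 then (1:ℤ) else -1) else 0)))).card : ℝ)) →
  sSup {β : ℝ | ∃ c : ℝ, 1 < c ∧ ∃ᶠ n in atTop,
      c < ((∑ s : Fin n → Fin d × Bool, Real.exp (-(β / (n:ℝ)) * I n s))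
              / (2 * (d:ℝ)) ^ n) ^ ((1:ℝ) / (n:ℝ))}
  =
  sInf {β : ℝ | ∃ M : ℝ, ∀ n : ℕ, 1 ≤ n →
      (∑ s : Fin n → Fin d × Bool, Real.exp (-(β / (n:ℝ)) *
          (I n s - (∑ t : Fin n → Fin d × Bool, I n t) / (2 * (d:ℝ)) ^ n)))
        / (2 * (d:ℝ)) ^ n ≤ M} := by
  intro d hd I hI
  exact Pool.Agent.Helper95.Poly.explicit hd I hI

end Pool.Agent.S19529
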